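import Mathlib

open MeasureTheory Set Filter Topology
open scoped NNReal ENNReal RealInnerProductSpace ContDiff Manifold

namespace Pool.Agent.H229.BI

/-- A segment from a point of a closed set to a point of the complement meets the frontier. -/
theorem exists_mem_segment_frontier {E : Type*} [NormedAddCommGroup E] [NormedSpace ℝ E]
    {T : Set E} (hT : IsClosed T) {x y : E} (hx : x ∈ T) (hy : y ∉ T) :
    ∃ z ∈ segment ℝ x y, z ∈ frontier T := by
  by_contra hcon
  push Not at hcon
  have hpre : IsPreconnected (segment ℝ x y) := (convex_segment x y).isPreconnected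
  have hcov : segment ℝ x y ⊆ interior T ∪ Tᶜ := by
    intro z hz
    by_cases hzT : z ∈ T
    · left
      by_contra hzi
      exact hcon z hz (by rw [hT.frontier_eq]; exact ⟨hzT, hzi⟩)
    · right; exact hzT
  have hxi : x ∈ interior T := by
    rcases hcov (left_mem_segment ℝ x y) with h | h
    · exact h
    · exact absurd hx h
  obtain ⟨z, hz, hz1, hz2⟩ := hpre (interior T) Tᶜ isOpen_interior hT.isOpen_compl hcov
    ⟨x, left_mem_segment ℝ x y, hxi⟩ ⟨y, right_mem_segment ℝ x y, hy⟩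
  exact hz2 (interior_subset hz1)

/-- Extension by zero of a Lipschitz function on a closed set that vanishes on the frontier. -/
theorem lipschitzWith_indicator {E : Type*} [NormedAddCommGroup E] [NormedSpace ℝ E]
    {C : ℝ≥0} {T : Set E} {f : E → ℝ} (hT : IsClosed T) (hf : LipschitzOnWith C f T)
    (h0 : ∀ x ∈ frontier T, f x = 0) : LipschitzWith C (T.indicator f) := by
  have key : ∀ x y : E, x ∈ T → y ∉ T → dist (T.indicator f x) (T.indicator f y) ≤ C * dist x y := by
    intro x y hx hy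
    obtain ⟨z, hz, hzf⟩ := exists_mem_segment_frontier hT hx hy
    have hzT : z ∈ T := hT.frontier_subset hzf
    rw [indicator_of_mem hx, indicator_of_notMem hy, ← h0 z hzf]
    calc dist (f x) (f z) ≤ C * dist x z := hf.dist_le_mul x hx z hzT
      _ ≤ C * dist x y := by
        gcongr
        have := dist_add_dist_of_mem_segment hz
        linarith [dist_nonneg (x := z) (y := y)]
  refine LipschitzWith.of_dist_le_mul fun x y => ?_
  by_cases hx : x ∈ T <;> by_cases hy : y ∈ T
  · rw [indicator_of_mem hx, indicator_of_mem hy]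
    exact hf.dist_le_mul x hx y hy
  · exact key x y hx hy
  · rw [dist_comm, dist_comm x y]; exact key y x hy hx
  · rw [indicator_of_notMem hx, indicator_of_notMem hy, dist_self]
    positivity

/-- Integration by parts: a compactly supported Lipschitz function against a function which is
`C^1` near the support. -/
theorem ibp {E : Type*} [NormedAddCommGroup E] [NormedSpace ℝ E] [FiniteDimensional ℝ E]
    [MeasurableSpace E] [BorelSpace E] {μ : Measure E} [μ.IsAddHaarMeasure] {W g : E → ℝ}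
    {C : ℝ≥0} (hW : LipschitzWith C W) (hWc : HasCompactSupport W) {O : Set E} (hO : IsOpen O)
    (hWO : tsupport W ⊆ O) (hg : ContDiffOn ℝ 1 g O) (v : E) :
    ∫ x, lineDeriv ℝ W x v * g x ∂μ = - ∫ x, W x * fderiv ℝ g x v ∂μ := by
  obtain ⟨K, hK, hWK, hKO⟩ := exists_compact_between hWc hO hWO
  obtain ⟨χ, hχ1, hχ0, -⟩ := exists_contMDiffMap_one_nhds_of_subset_interior (n := (⊤ : ℕ∞))
    (𝓘(ℝ, E)) (isClosed_tsupport W) hWK
  have hχd : ContDiff ℝ ((⊤ : ℕ∞) : WithTop ℕ∞) χ := χ.contMDiff.contDiff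
  have hg' : ContDiff ℝ 1 (fun x => χ x * g x) := by
    rw [contDiff_iff_contDiffAt]
    intro x
    by_cases hx : x ∈ O
    · exact (hχd.contDiffAt.of_le (by exact_mod_cast le_top)).mul (hg.contDiffAt (hO.mem_nhds hx))
    · have hxK : x ∈ Kᶜ := fun h => hx (hKO h)
      have : (fun x => χ x * g x) =ᶠ[𝓝 x] fun _ => 0 := by
        filter_upwards [hK.isClosed.isOpen_compl.mem_nhds hxK] with y hy
        rw [hχ0 y hy, zero_mul]
      exact contDiffAt_const.congr_of_eventuallyEq this
  have hgc : HasCompactSupport (fun x => χ x * g x) := by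
    refine HasCompactSupport.intro hK fun x hx => ?_
    simp only [hχ0 x hx, zero_mul]
  obtain ⟨D, hD⟩ := ContDiff.lipschitzWith_of_hasCompactSupport hgc hg' one_ne_zero
  have h := LipschitzWith.integral_lineDeriv_mul_eq (μ := μ) hD hW hWc v
  have hnear : ∀ x ∈ tsupport W, ∀ᶠ y in 𝓝 x, χ y = 1 := by
    intro x hx
    exact (eventually_nhdsSet_iff_forall.mp hχ1) x hx
  have h1 : ∀ x, lineDeriv ℝ (fun x => χ x * g x) x v * W x = W x * fderiv ℝ g x v := by
    intro x
    by_cases hx : x ∈ tsupport W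
    · have he : (fun x => χ x * g x) =ᶠ[𝓝 x] g := by
        filter_upwards [hnear x hx] with y hy
        rw [hy, one_mul]
      have hgd : DifferentiableAt ℝ g x :=
        (hg.contDiffAt (hO.mem_nhds (hWO hx))).differentiableAt one_ne_zero
      have hgd' : DifferentiableAt ℝ (fun x => χ x * g x) x := hgd.congr_of_eventuallyEq he
      rw [hgd'.lineDeriv_eq_fderiv, he.fderiv_eq, mul_comm]
    · rw [image_eq_zero_of_notMem_tsupport hx]; simp
  have h2 : ∀ x, lineDeriv ℝ W x (-v) * (χ x * g x) = - (lineDeriv ℝ W x v * g x) := by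
    intro x
    by_cases hx : x ∈ tsupport W
    · rw [(hnear x hx).self_of_nhds, one_mul, lineDeriv_neg]; ring
    · have : W =ᶠ[𝓝 x] fun _ => 0 := by
        filter_upwards [(isClosed_tsupport W).isOpen_compl.mem_nhds hx] with y hy
        exact image_eq_zero_of_notMem_tsupport hy
      have hd : DifferentiableAt ℝ W x := (differentiableAt_const 0).congr_of_eventuallyEq this
      rw [hd.lineDeriv_eq_fderiv, hd.lineDeriv_eq_fderiv, this.fderiv_eq]
      simp
  simp only [h1, h2] at h
  rw [integral_neg] at h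
  linarith

/-- The pointwise inequality behind the energy comparison. -/
theorem sqrt_sub_sqrt_le {E : Type*} [NormedAddCommGroup E] [InnerProductSpace ℝ E] {p q : E}
    (hp : ‖p‖ < 1) (hq : ‖q‖ ≤ 1) :
    √(1 - ‖q‖ ^ 2) - √(1 - ‖p‖ ^ 2) ≤
      (⟪p, p - q⟫ - ‖p - q‖ ^ 2 / 2) / √(1 - ‖p‖ ^ 2) := by
  have hb : 0 < 1 - ‖p‖ ^ 2 := by nlinarith [norm_nonneg p]
  have ha : 0 ≤ 1 - ‖q‖ ^ 2 := by nlinarith [norm_nonneg q]
  set b := √(1 - ‖p‖ ^ 2) with hbdef
  set a := √(1 - ‖q‖ ^ 2) with hadef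
  have hb0 : 0 < b := Real.sqrt_pos.mpr hb
  have hb2 : b ^ 2 = 1 - ‖p‖ ^ 2 := Real.sq_sqrt hb.le
  have ha2 : a ^ 2 = 1 - ‖q‖ ^ 2 := Real.sq_sqrt ha
  have h1 : ‖p - q‖ ^ 2 = ‖p‖ ^ 2 - 2 * ⟪p, q⟫ + ‖q‖ ^ 2 := norm_sub_sq_real p q
  have h2 : ⟪p, p - q⟫ = ‖p‖ ^ 2 - ⟪p, q⟫ := by
    rw [inner_sub_right, real_inner_self_eq_norm_sq]
  rw [le_div_iff₀ hb0, h1, h2]
  nlinarith [sq_nonneg (a - b)]

end Pool.Agent.H229.BI
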