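import Pool.Agent.H229.BI.Basic

open MeasureTheory Set Filter Topology Metric
open scoped NNReal ENNReal RealInnerProductSpace

namespace Pool.Agent.H229.BI

/-- Euclidean space. -/
abbrev E (m : ℕ) := EuclideanSpace ℝ (Fin m)

/-- squared distance to the first axis -/
noncomputable def qq {n : ℕ} (x : E (n + 1)) : ℝ := ∑ i : Fin n, (x i.succ) ^ 2

/-- the comparison function -/
noncomputable def cc {n : ℕ} (a K h ε : ℝ) (x : E (n + 1)) : ℝ :=
  x 0 + ε * (Real.exp (-K * x 0) - Real.exp (-K * h)) - a * qq x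

/-- `κ = - τ'` -/
noncomputable def kap {n : ℕ} (K ε : ℝ) (x : E (n + 1)) : ℝ := ε * K * Real.exp (-K * x 0)

/-- the gradient of the comparison function -/
noncomputable def pp {n : ℕ} (a K ε : ℝ) (x : E (n + 1)) : E (n + 1) :=
  WithLp.toLp 2 (Fin.cons (1 - kap K ε x) fun i : Fin n => -(2 * a * x i.succ))

/-- `1 - |Dc|^2` -/
noncomputable def BB {n : ℕ} (a K ε : ℝ) (x : E (n + 1)) : ℝ :=
  1 - ((1 - kap K ε x) ^ 2 + 4 * a ^ 2 * qq x)

variable {n : ℕ}

theorem norm_sq (x : E (n + 1)) : ‖x‖ ^ 2 = (x 0) ^ 2 + qq x := by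
  rw [EuclideanSpace.norm_sq_eq, Fin.sum_univ_succ]
  simp [qq, Real.norm_eq_abs, sq_abs]

theorem qq_nonneg (x : E (n + 1)) : 0 ≤ qq x := Finset.sum_nonneg fun _ _ => sq_nonneg _

theorem pp_zero (a K ε : ℝ) (x : E (n + 1)) : pp a K ε x 0 = 1 - kap K ε x := rfl

theorem pp_succ (a K ε : ℝ) (x : E (n + 1)) (i : Fin n) :
    pp a K ε x i.succ = -(2 * a * x i.succ) := rfl

theorem norm_pp_sq (a K ε : ℝ) (x : E (n + 1)) :
    ‖pp a K ε x‖ ^ 2 = (1 - kap K ε x) ^ 2 + 4 * a ^ 2 * qq x := by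
  rw [norm_sq, pp_zero, qq, qq, Finset.mul_sum]
  congr 1
  refine Finset.sum_congr rfl fun i _ => ?_
  rw [pp_succ]; ring

theorem one_sub_norm_pp_sq (a K ε : ℝ) (x : E (n + 1)) :
    1 - ‖pp a K ε x‖ ^ 2 = BB a K ε x := by rw [norm_pp_sq, BB]

theorem proj_apply' (i : Fin (n + 1)) (v : E (n + 1)) :
    (EuclideanSpace.proj i : E (n + 1) →L[ℝ] ℝ) v = v i := rfl

theorem hasFDerivAt_coord (i : Fin (n + 1)) (x : E (n + 1)) :
    HasFDerivAt (fun x : E (n + 1) => x i) (EuclideanSpace.proj i : E (n + 1) →L[ℝ] ℝ) x :=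
  (EuclideanSpace.proj i : E (n + 1) →L[ℝ] ℝ).hasFDerivAt

theorem contDiff_coord (i : Fin (n + 1)) {k : WithTop ℕ∞} :
    ContDiff ℝ k (fun x : E (n + 1) => x i) :=
  (EuclideanSpace.proj i : E (n + 1) →L[ℝ] ℝ).contDiff

theorem contDiff_qq {k : WithTop ℕ∞} : ContDiff ℝ k (qq : E (n + 1) → ℝ) := by
  unfold qq
  exact ContDiff.sum fun i _ => (contDiff_coord _).pow 2

theorem contDiff_kap (K ε : ℝ) {k : WithTop ℕ∞} : ContDiff ℝ k (kap K ε : E (n + 1) → ℝ) := by
  unfold kap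
  exact contDiff_const.mul (Real.contDiff_exp.comp (contDiff_const.mul (contDiff_coord _)))

theorem contDiff_cc (a K h ε : ℝ) {k : WithTop ℕ∞} : ContDiff ℝ k (cc a K h ε : E (n + 1) → ℝ) := by
  unfold cc
  exact ((contDiff_coord _).add (contDiff_const.mul
    ((Real.contDiff_exp.comp (contDiff_const.mul (contDiff_coord _))).sub contDiff_const))).sub
    (contDiff_const.mul contDiff_qq)

theorem contDiff_BB (a K ε : ℝ) {k : WithTop ℕ∞} : ContDiff ℝ k (BB a K ε : E (n + 1) → ℝ) := by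
  unfold BB
  exact contDiff_const.sub (((contDiff_const.sub (contDiff_kap K ε)).pow 2).add
    (contDiff_const.mul contDiff_qq))

theorem contDiff_pp (a K ε : ℝ) (i : Fin (n + 1)) {k : WithTop ℕ∞} :
    ContDiff ℝ k (fun x : E (n + 1) => pp a K ε x i) := by
  refine Fin.cases ?_ (fun j => ?_) i
  · simp only [pp_zero]; exact contDiff_const.sub (contDiff_kap K ε)
  · simp only [pp_succ]; exact (contDiff_const.mul (contDiff_coord _)).neg

/-- derivative of `qq` -/
theorem hasFDerivAt_qq (x : E (n + 1)) :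
    HasFDerivAt (qq : E (n + 1) → ℝ)
      (∑ i : Fin n, (2 * x i.succ) • (EuclideanSpace.proj i.succ : E (n + 1) →L[ℝ] ℝ)) x := by
  unfold qq
  refine HasFDerivAt.fun_sum fun i _ => ?_
  have := (hasFDerivAt_coord (i.succ) x).pow 2
  simpa using this

theorem hasFDerivAt_exp (K : ℝ) (x : E (n + 1)) :
    HasFDerivAt (fun x : E (n + 1) => Real.exp (-K * x 0))
      ((-K * Real.exp (-K * x 0)) • (EuclideanSpace.proj 0 : E (n + 1) →L[ℝ] ℝ)) x := by
  have h := ((hasFDerivAt_coord 0 x).const_mul (-K)).exp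
  refine h.congr_fderiv ?_
  rw [smul_smul]; congr 1; ring

theorem hasGradientAt_cc (a K h ε : ℝ) (x : E (n + 1)) :
    HasGradientAt (cc a K h ε) (pp a K ε x) x := by
  rw [hasGradientAt_iff_hasFDerivAt]
  have h1 : HasFDerivAt (cc a K h ε : E (n + 1) → ℝ)
      ((EuclideanSpace.proj 0 : E (n + 1) →L[ℝ] ℝ) +
        ε • ((-K * Real.exp (-K * x 0)) • (EuclideanSpace.proj 0 : E (n + 1) →L[ℝ] ℝ)) -
        a • (∑ i : Fin n, (2 * x i.succ) • (EuclideanSpace.proj i.succ : E (n + 1) →L[ℝ] ℝ))) x := by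
    unfold cc
    refine ((hasFDerivAt_coord 0 x).add (((hasFDerivAt_exp K x).sub_const _).const_mul ε)).sub
      ((hasFDerivAt_qq x).const_mul a)
  refine h1.congr_fderiv ?_
  symm
  ext v
  rw [InnerProductSpace.toDual_apply_apply, PiLp.inner_apply, Fin.sum_univ_succ]
  simp only [pp_zero, pp_succ, kap]
  simp only [RCLike.inner_apply, conj_trivial, sub_apply,
    add_apply, smul_apply, proj_apply',
    smul_eq_mul, sum_apply, Finset.mul_sum]
  rw [sub_eq_add_neg _ (∑ i : Fin n, a * (2 * x.ofLp i.succ * v.ofLp i.succ)),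
    ← Finset.sum_neg_distrib]
  congr 1
  · ring
  · refine Finset.sum_congr rfl fun i _ => by ring

theorem hasFDerivAt_kap (K ε : ℝ) (x : E (n + 1)) :
    HasFDerivAt (kap K ε : E (n + 1) → ℝ)
      ((-K * kap K ε x) • (EuclideanSpace.proj 0 : E (n + 1) →L[ℝ] ℝ)) x := by
  unfold kap
  have h := (hasFDerivAt_exp K x).const_mul (ε * K)
  refine h.congr_fderiv ?_
  rw [smul_smul]; congr 1; ring

theorem hasFDerivAt_BB (a K ε : ℝ) (x : E (n + 1)) :
    HasFDerivAt (BB a K ε : E (n + 1) → ℝ)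
      (-((2 * (1 - kap K ε x) * (K * kap K ε x)) • (EuclideanSpace.proj 0 : E (n + 1) →L[ℝ] ℝ)
        + (4 * a ^ 2) • (∑ i : Fin n, (2 * x i.succ) •
          (EuclideanSpace.proj i.succ : E (n + 1) →L[ℝ] ℝ)))) x := by
  unfold BB
  have h1 : HasFDerivAt (fun x : E (n + 1) => (1 - kap K ε x) ^ 2)
      ((2 * (1 - kap K ε x) * (K * kap K ε x)) • (EuclideanSpace.proj 0 : E (n + 1) →L[ℝ] ℝ)) x := by
    have := ((hasFDerivAt_kap K ε x).const_sub 1).pow 2
    refine this.congr_fderiv ?_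
    ext v
    simp
    ring
  exact (h1.add ((hasFDerivAt_qq x).const_mul (4 * a ^ 2))).const_sub 1

end Pool.Agent.H229.BI
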