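import Pool.Agent.H229.BI.Tube

open MeasureTheory Set Filter Topology Metric
open scoped NNReal ENNReal RealInnerProductSpace

namespace Pool.Agent.H229.BI

variable {n : ℕ}

theorem integrable_of_bdd_supp {X : Type*} [TopologicalSpace X] [MeasurableSpace X]
    [OpensMeasurableSpace X] [T2Space X] {μ : Measure X} [IsFiniteMeasureOnCompacts μ]
    {f : X → ℝ} {Z : Set X} {C : ℝ}
    (hZ : IsCompact Z) (hm : AEStronglyMeasurable f μ) (hb : ∀ x ∈ Z, |f x| ≤ C)
    (h0 : ∀ x, x ∉ Z → f x = 0) : Integrable f μ := by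
  have h1 : IntegrableOn f Z μ := by
    refine Measure.integrableOn_of_bounded (M := C) hZ.measure_lt_top.ne hm ?_
    exact (ae_restrict_iff' hZ.measurableSet).mpr (Eventually.of_forall fun x hx => by
      simpa [Real.norm_eq_abs] using hb x hx)
  refine (integrableOn_iff_integrable_of_support_subset ?_).mp h1
  intro x hx
  by_contra hcon
  exact hx (h0 x hcon)

theorem sqrt_one_sub_sq_le_one (t : ℝ) : √(1 - t ^ 2) ≤ 1 := by
  refine Real.sqrt_le_one.mpr ?_
  nlinarith [sq_nonneg t]

theorem fderiv_add_of_hasFDerivAt_zero {F : Type*} [NormedAddCommGroup F] [NormedSpace ℝ F]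
    {U W : F → ℝ} {x : F} (hW : HasFDerivAt W (0 : F →L[ℝ] ℝ) x) :
    fderiv ℝ (fun y => U y + W y) x = fderiv ℝ U x := by
  by_cases hU : DifferentiableAt ℝ U x
  · have h1 := hU.hasFDerivAt.add hW
    rw [add_zero] at h1
    have h2 : HasFDerivAt (fun y => U y + W y) (fderiv ℝ U x) x := h1
    exact h2.fderiv
  · rw [fderiv_zero_of_not_differentiableAt hU]
    apply fderiv_zero_of_not_differentiableAt
    intro h
    apply hU
    have h2 := h.sub hW.differentiableAt
    have : U = fun y => (U y + W y) - W y := by ext y; ring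
    rw [this]
    exact h2

namespace Dat

variable {w : E (n + 1) → ℝ} {ell t0 γ K ε : ℝ}

theorem eventually_zero_of_notMem {x : E (n + 1)} {a h : ℝ} (hx : x ∉ ZZ n ell K h ε t0) :
    WW w ell a K h ε t0 =ᶠ[𝓝 x] fun _ => 0 := by
  filter_upwards [(isClosed_ZZ ell K h ε t0).isOpen_compl.mem_nhds hx] with y hy
  exact indicator_of_notMem hy _

/-- weight -/
noncomputable def lam (K t0 ε : ℝ) : ℝ := 1 / (2 * √(2 * (ε * K * Real.exp (K * t0))))

theorem lam_pos (D : Dat n w ell t0 γ K ε) : 0 < lam K t0 ε := by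
  have := D.hε; have := D.K_pos
  unfold lam; positivity

/-- The comparison integrand. -/
noncomputable def GG (w : E (n + 1) → ℝ) (ell t0 K ε : ℝ) (x : E (n + 1)) : ℝ :=
  (∑ i, lineDeriv ℝ (WW w ell (2 / ell) K (ell / 2) ε t0) x (EuclideanSpace.single i 1) *
    gg (2 / ell) K ε i x) - lam K t0 ε * ‖fderiv ℝ (WW w ell (2 / ell) K (ell / 2) ε t0) x‖ ^ 2

theorem GG_eq_zero {x : E (n + 1)} (hx : x ∉ ZZ n ell K (ell / 2) ε t0) :
    GG w ell t0 K ε x = 0 := by
  have h := eventually_zero_of_notMem (w := w) (a := 2 / ell) hx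
  have hd : DifferentiableAt ℝ (WW w ell (2 / ell) K (ell / 2) ε t0) x :=
    (differentiableAt_const 0).congr_of_eventuallyEq h
  unfold GG
  have h2 : fderiv ℝ (WW w ell (2 / ell) K (ell / 2) ε t0) x = 0 := by
    rw [h.fderiv_eq]; simp
  simp only [hd.lineDeriv_eq_fderiv, h2]
  simp

/-- Pointwise comparison. -/
theorem pointwise (D : Dat n w ell t0 γ K ε) {U : E (n + 1) → ℝ}
    (hU : ∀ x ∈ ZZ n ell K (ell / 2) ε t0, U =ᶠ[𝓝 x] w) {x : E (n + 1)}
    (hd : DifferentiableAt ℝ (WW w ell (2 / ell) K (ell / 2) ε t0) x) :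
    √(1 - ‖fderiv ℝ U x‖ ^ 2) -
      √(1 - ‖fderiv ℝ (fun y => U y + WW w ell (2 / ell) K (ell / 2) ε t0 y) x‖ ^ 2) ≤
    GG w ell t0 K ε x := by
  rcases (WW_nonneg (w := w) (ell := ell) (K := K) (ε := ε) (t0 := t0) x (2 / ell)
    (ell / 2)).lt_or_eq with hpos | hzero
  · -- positive
    have hev := D.eventuallyEq_of_pos hpos
    have hxZ : x ∈ ZZ n ell K (ell / 2) ε t0 := by
      by_contra hcon
      have : WW w ell (2 / ell) K (ell / 2) ε t0 x = 0 := indicator_of_notMem hcon _
      linarith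
    have hUx := hU x hxZ
    have hsum : (fun y => U y + WW w ell (2 / ell) K (ell / 2) ε t0 y) =ᶠ[𝓝 x]
        cc (2 / ell) K (ell / 2) ε := by
      filter_upwards [hev, hUx] with y h1 h2
      rw [h1, h2]; ring
    have hc := hasGradientAt_cc (2 / ell) K (ell / 2) ε x
    have hwd : DifferentiableAt ℝ w x := by
      have h3 : w =ᶠ[𝓝 x] fun y => cc (2 / ell) K (ell / 2) ε y -
          WW w ell (2 / ell) K (ell / 2) ε t0 y := by
        filter_upwards [hev] with y h1
        rw [h1]; ring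
      exact (hc.differentiableAt.sub hd).congr_of_eventuallyEq h3
    have hwg := hwd.hasGradientAt
    have hWg : HasGradientAt (WW w ell (2 / ell) K (ell / 2) ε t0)
        (pp (2 / ell) K ε x - gradient w x) x := by
      have h4 : HasGradientAt (fun y => cc (2 / ell) K (ell / 2) ε y - w y)
        (pp (2 / ell) K ε x - gradient w x) x := by
        rw [hasGradientAt_iff_hasFDerivAt, map_sub]
        exact hc.hasFDerivAt.sub hwg.hasFDerivAt
      exact h4.congr_of_eventuallyEq hev
    have hnorm : ∀ {f : E (n + 1) → ℝ} {g : E (n + 1)}, HasGradientAt f g x →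
        ‖fderiv ℝ f x‖ = ‖g‖ := by
      intro f g hfg
      rw [hfg.hasFDerivAt.fderiv]
      simp
    have hq1 : ‖gradient w x‖ ≤ 1 := by
      rw [← hnorm hwg]
      have := norm_fderiv_le_of_lipschitz ℝ D.hw (x₀ := x)
      simpa using this
    have hBpos := D.BB_pos hxZ
    have hp1 : ‖pp (2 / ell) K ε x‖ < 1 := by
      have h5 := one_sub_norm_pp_sq (2 / ell) K ε x
      have : ‖pp (2 / ell) K ε x‖ ^ 2 < 1 := by linarith
      nlinarith [norm_nonneg (pp (2 / ell) K ε x)]
    have key := sqrt_sub_sqrt_le hp1 hq1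
    rw [hsum.fderiv_eq, hUx.fderiv_eq, hnorm hwg, hnorm hc]
    refine key.trans ?_
    unfold GG
    rw [hnorm hWg]
    have hline : ∀ i : Fin (n + 1), lineDeriv ℝ (WW w ell (2 / ell) K (ell / 2) ε t0) x
        (EuclideanSpace.single i 1) = (pp (2 / ell) K ε x - gradient w x) i := by
      intro i
      rw [hd.lineDeriv_eq_fderiv, hWg.hasFDerivAt.fderiv, InnerProductSpace.toDual_apply_apply]
      simp [EuclideanSpace.inner_single_right]
    have hinner : ⟪pp (2 / ell) K ε x, pp (2 / ell) K ε x - gradient w x⟫ =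
        ∑ i, (pp (2 / ell) K ε x - gradient w x) i * pp (2 / ell) K ε x i := by
      rw [PiLp.inner_apply]
      simp
    simp only [hline]
    rw [one_sub_norm_pp_sq, sub_div, hinner]
    have hs : √(BB (2 / ell) K ε x) ≤ √(2 * (ε * K * Real.exp (K * t0))) := by
      apply Real.sqrt_le_sqrt
      have h6 := D.BB_le x
      have h7 := D.kap_le hxZ.1
      linarith
    have hs0 : 0 < √(BB (2 / ell) K ε x) := Real.sqrt_pos.mpr hBpos
    have e1 : (∑ i, (pp (2 / ell) K ε x - gradient w x) i * pp (2 / ell) K ε x i) /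
        √(BB (2 / ell) K ε x) =
        ∑ i, (pp (2 / ell) K ε x - gradient w x) i * gg (2 / ell) K ε i x := by
      rw [Finset.sum_div]
      refine Finset.sum_congr rfl fun i _ => ?_
      unfold gg rr
      ring
    have e2 : lam K t0 ε * ‖pp (2 / ell) K ε x - gradient w x‖ ^ 2 ≤
        ‖pp (2 / ell) K ε x - gradient w x‖ ^ 2 / 2 / √(BB (2 / ell) K ε x) := by
      have : lam K t0 ε ≤ 1 / (2 * √(BB (2 / ell) K ε x)) := by
        unfold lam
        gcongr
      calc lam K t0 ε * ‖pp (2 / ell) K ε x - gradient w x‖ ^ 2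
          ≤ 1 / (2 * √(BB (2 / ell) K ε x)) * ‖pp (2 / ell) K ε x - gradient w x‖ ^ 2 := by gcongr
        _ = _ := by ring
    rw [e1]
    linarith
  · -- zero
    have hmin : IsLocalMin (WW w ell (2 / ell) K (ell / 2) ε t0) x := by
      refine Eventually.of_forall fun y => ?_
      rw [← hzero]
      exact WW_nonneg y _ _
    have hf0 := hmin.fderiv_eq_zero
    have hF : HasFDerivAt (WW w ell (2 / ell) K (ell / 2) ε t0) (0 : E (n + 1) →L[ℝ] ℝ) x := by
      rw [← hf0]; exact hd.hasFDerivAt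
    rw [fderiv_add_of_hasFDerivAt_zero hF, sub_self]
    unfold GG
    simp only [hd.lineDeriv_eq_fderiv, hf0]
    simp

/-- Integrated comparison. -/
theorem integral_GG_le (D : Dat n w ell t0 γ K ε) :
    Integrable (GG w ell t0 K ε) ∧
    ∫ x, GG w ell t0 K ε x ≤
      - lam K t0 ε * ∫ x, ‖fderiv ℝ (WW w ell (2 / ell) K (ell / 2) ε t0) x‖ ^ 2 := by
  obtain ⟨C, hC⟩ := D.exists_lipschitz
  set W := WW w ell (2 / ell) K (ell / 2) ε t0 with hWdef
  have hZc : IsCompact (ZZ n ell K (ell / 2) ε t0) := isCompact_ZZ D.hell D.K_pos D.hε.le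
  have hoff : ∀ x, x ∉ ZZ n ell K (ell / 2) ε t0 → fderiv ℝ W x = 0 ∧ ∀ v, lineDeriv ℝ W x v = 0 := by
    intro x hx
    have h := eventually_zero_of_notMem (w := w) (a := 2 / ell) hx
    have hd : DifferentiableAt ℝ W x := (differentiableAt_const 0).congr_of_eventuallyEq h
    have h2 : fderiv ℝ W x = 0 := by rw [h.fderiv_eq]; simp
    exact ⟨h2, fun v => by rw [hd.lineDeriv_eq_fderiv, h2]; simp⟩
  have hgmeas : ∀ i, Measurable (gg (2 / ell) K ε i : E (n + 1) → ℝ) := by
    intro i
    unfold gg rr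
    exact ((contDiff_pp (2 / ell) K ε i (k := 0)).continuous.measurable).mul
      ((contDiff_BB (2 / ell) K ε (k := 0)).continuous.measurable.sqrt.inv)
  have hgcont : ∀ i, ContinuousOn (gg (2 / ell) K ε i : E (n + 1) → ℝ)
      (ZZ n ell K (ell / 2) ε t0) := fun i =>
    (contDiffOn_gg (2 / ell) K ε i).continuousOn.mono fun x hx => D.BB_pos hx
  have hint1 : ∀ i, Integrable (fun x => lineDeriv ℝ W x (EuclideanSpace.single i 1) *
      gg (2 / ell) K ε i x) := by
    intro i
    obtain ⟨B, hB⟩ := hZc.exists_bound_of_continuousOn (hgcont i)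
    refine integrable_of_bdd_supp (C := C * ‖(EuclideanSpace.single i (1:ℝ) : E (n + 1))‖ * B) hZc ?_ ?_ ?_
    · exact ((measurable_lineDeriv hC.continuous).mul (hgmeas i)).aestronglyMeasurable
    · intro x hx
      rw [abs_mul]
      have h1 : |lineDeriv ℝ W x (EuclideanSpace.single i 1)| ≤
          C * ‖(EuclideanSpace.single i (1:ℝ) : E (n + 1))‖ := by
        have := norm_lineDeriv_le_of_lipschitz ℝ hC (x₀ := x) (v := EuclideanSpace.single i (1:ℝ))
        rwa [Real.norm_eq_abs] at this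
      have h2 : |gg (2 / ell) K ε i x| ≤ B := by simpa [Real.norm_eq_abs] using hB x hx
      exact mul_le_mul h1 h2 (abs_nonneg _) (by positivity)
    · intro x hx
      rw [(hoff x hx).2, zero_mul]
  have hint2 : Integrable (fun x => ‖fderiv ℝ W x‖ ^ 2) := by
    refine integrable_of_bdd_supp (C := (C : ℝ) ^ 2) hZc ?_ ?_ ?_
    · exact ((measurable_fderiv ℝ W).norm.pow_const 2).aestronglyMeasurable
    · intro x _
      rw [abs_of_nonneg (by positivity)]
      have := norm_fderiv_le_of_lipschitz ℝ hC (x₀ := x)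
      gcongr
    · intro x hx
      rw [(hoff x hx).1]; simp
  have hintG : Integrable (GG w ell t0 K ε) := by
    unfold GG
    exact (integrable_finsetSum _ fun i _ => hint1 i).sub (hint2.const_mul _)
  refine ⟨hintG, ?_⟩
  have hG : ∫ x, GG w ell t0 K ε x =
      (∑ i, ∫ x, lineDeriv ℝ W x (EuclideanSpace.single i 1) * gg (2 / ell) K ε i x) -
      lam K t0 ε * ∫ x, ‖fderiv ℝ W x‖ ^ 2 := by
    unfold GG
    rw [integral_sub (integrable_finsetSum _ fun i _ => hint1 i) (hint2.const_mul _),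
      integral_finsetSum _ fun i _ => hint1 i, integral_const_mul]
  rw [hG]
  have hO : IsOpen {x : E (n + 1) | 0 < BB (2 / ell) K ε x} :=
    isOpen_lt continuous_const (contDiff_BB (2 / ell) K ε (k := 0)).continuous
  have hibp : ∀ i, ∫ x, lineDeriv ℝ W x (EuclideanSpace.single i 1) * gg (2 / ell) K ε i x =
      - ∫ x, W x * fderiv ℝ (gg (2 / ell) K ε i) x (EuclideanSpace.single i 1) := by
    intro i
    exact ibp hC D.hasCompactSupport hO
      ((tsupport_subset _ _ _ _ _ _).trans fun x hx => D.BB_pos hx) (contDiffOn_gg _ _ _ i) _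
  simp only [hibp]
  rw [Finset.sum_neg_distrib]
  have hint3 : ∀ i, Integrable fun x => W x *
      fderiv ℝ (gg (2 / ell) K ε i) x (EuclideanSpace.single i 1) := by
    intro i
    have hcont : ContinuousOn (fun x => fderiv ℝ (gg (2 / ell) K ε i) x
        (EuclideanSpace.single i 1)) (ZZ n ell K (ell / 2) ε t0) := by
      have h1 := (contDiffOn_gg (2 / ell) K ε i (n := n)).continuousOn_fderiv_of_isOpen hO le_rfl
      exact (h1.clm_apply continuousOn_const).mono fun x hx => D.BB_pos hx
    obtain ⟨B, hB⟩ := hZc.exists_bound_of_continuousOn hcont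
    refine integrable_of_bdd_supp (C := ε * Real.exp (K * t0) * B) hZc ?_ ?_ ?_
    · exact (hC.continuous.measurable.mul
        (measurable_fderiv_apply_const ℝ _ _)).aestronglyMeasurable
    · intro x hx
      rw [abs_mul, abs_of_nonneg (WW_nonneg x _ _)]
      exact mul_le_mul (D.WW_le x) (by simpa [Real.norm_eq_abs] using hB x hx) (abs_nonneg _)
        (by have := D.hε; positivity)
    · intro x hx
      rw [hWdef]; unfold WW; rw [indicator_of_notMem hx, zero_mul]
  have hsum : 0 ≤ ∑ i, ∫ x, W x * fderiv ℝ (gg (2 / ell) K ε i) x (EuclideanSpace.single i 1) := by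
    rw [← integral_finsetSum _ fun i _ => hint3 i]
    refine integral_nonneg fun x => ?_
    simp only [← Finset.mul_sum]
    by_cases hx : x ∈ ZZ n ell K (ell / 2) ε t0
    · exact mul_nonneg (WW_nonneg x _ _) (D.div_nonneg hx)
    · have : W x = 0 := indicator_of_notMem hx _
      rw [this]; simp
  linarith

end Dat

end Pool.Agent.H229.BI
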