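import Mathlib

open MeasureTheory Set
open scoped NNReal ENNReal

namespace Pool.Agent.H229.BI

/-- The vertices `p 0 = x, p 1, ..., p n = y` of a piecewise affine path from `x` to `y` whose
interior lies in `Ω`: all the open segments between consecutive vertices lie in `Ω`, and so do the
intermediate vertices. -/
def IsPolygonalPath {m : ℕ} (Ω : Set (EuclideanSpace ℝ (Fin m))) (x y : EuclideanSpace ℝ (Fin m))
    (n : ℕ) (p : ℕ → EuclideanSpace ℝ (Fin m)) : Prop :=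
  p 0 = x ∧ p n = y ∧ 1 ≤ n ∧ (∀ i < n, openSegment ℝ (p i) (p (i + 1)) ⊆ Ω) ∧
    ∀ i, 0 < i → i < n → p i ∈ Ω

/-- The intrinsic distance of two points of the closure of `Ω`: the infimum of the Euclidean
lengths of the piecewise affine paths joining them through `Ω`, `⊤` if there is none. -/
noncomputable def innerDist {m : ℕ} (Ω : Set (EuclideanSpace ℝ (Fin m)))
    (x y : EuclideanSpace ℝ (Fin m)) : ℝ≥0∞ :=
  ⨅ (n : ℕ) (p : ℕ → EuclideanSpace ℝ (Fin m)) (_ : IsPolygonalPath Ω x y n p),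
    ENNReal.ofReal (∑ i ∈ Finset.range n, dist (p i) (p (i + 1)))

/-- The class of boundary data: continuous on `∂Ω` and strictly spacelike with respect to the
intrinsic distance. -/
def IsSpacelikeBoundary {m : ℕ} (Ω : Set (EuclideanSpace ℝ (Fin m)))
    (φ : EuclideanSpace ℝ (Fin m) → ℝ) : Prop :=
  ContinuousOn φ (frontier Ω) ∧ ∀ x ∈ frontier Ω, ∀ y ∈ frontier Ω, x ≠ y →
    ENNReal.ofReal |φ x - φ y| < innerDist Ω x y

/-- The class `𝒴_φ(Ω)`: continuous on the closure of `Ω`, equal to `φ` on the boundary, locally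
Lipschitz in `Ω` with gradient of norm at most one almost everywhere. -/
def IsAdmissible {m : ℕ} (Ω : Set (EuclideanSpace ℝ (Fin m)))
    (φ v : EuclideanSpace ℝ (Fin m) → ℝ) : Prop :=
  ContinuousOn v (closure Ω) ∧ (∀ x ∈ frontier Ω, v x = φ x) ∧ LocallyLipschitzOn Ω v ∧
    ∀ᵐ x ∂(volume.restrict Ω), ‖fderiv ℝ v x‖ ≤ 1

/-- The Born-Infeld functional. -/
noncomputable def energy {m : ℕ} (Ω : Set (EuclideanSpace ℝ (Fin m)))
    (ρ v : EuclideanSpace ℝ (Fin m) → ℝ) : ℝ :=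
  (∫ x in Ω, (1 - √(1 - ‖fderiv ℝ v x‖ ^ 2))) - ∫ x in Ω, ρ x * v x

/-- Minimizers of the Born-Infeld functional with boundary datum `φ` and source `ρ`. -/
def IsMinimizer {m : ℕ} (Ω : Set (EuclideanSpace ℝ (Fin m)))
    (φ ρ u : EuclideanSpace ℝ (Fin m) → ℝ) : Prop :=
  IsAdmissible Ω φ u ∧ ∀ v, IsAdmissible Ω φ v → energy Ω ρ u ≤ energy Ω ρ v

/-- There is a light segment of `u` in `Ω`. -/
def HasLightSegment {m : ℕ} (Ω : Set (EuclideanSpace ℝ (Fin m)))
    (u : EuclideanSpace ℝ (Fin m) → ℝ) : Prop :=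
  ∃ x y, x ≠ y ∧ segment ℝ x y ⊆ Ω ∧ |u x - u y| = ‖x - y‖

end Pool.Agent.H229.BI
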