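import Pool.Agent.H229.BI.Coord

open MeasureTheory Set Filter Topology Metric
open scoped NNReal ENNReal RealInnerProductSpace

namespace Pool.Agent.H229.BI

variable {n : ℕ}

/-- `1 / √(1 - |Dc|²)` -/
noncomputable def rr {n : ℕ} (a K ε : ℝ) (x : E (n + 1)) : ℝ := (√(BB a K ε x))⁻¹

/-- components of the flux `Dc / √(1 - |Dc|²)` -/
noncomputable def gg {n : ℕ} (a K ε : ℝ) (i : Fin (n + 1)) (x : E (n + 1)) : ℝ :=
  pp a K ε x i * rr a K ε x

theorem hasDerivAt_inv_sqrt {b : ℝ} (hb : 0 < b) :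
    HasDerivAt (fun b : ℝ => (√b)⁻¹) (-(1 / 2) * ((√b)⁻¹) ^ 3) b := by
  have h := (Real.hasDerivAt_sqrt hb.ne').inv (Real.sqrt_pos.mpr hb).ne'
  refine h.congr_deriv ?_
  have : √b ≠ 0 := (Real.sqrt_pos.mpr hb).ne'
  field_simp

theorem hasFDerivAt_rr (a K ε : ℝ) {x : E (n + 1)} (hx : 0 < BB a K ε x) :
    HasFDerivAt (rr a K ε : E (n + 1) → ℝ)
      ((1 / 2 * (rr a K ε x) ^ 3) •
      ((2 * (1 - kap K ε x) * (K * kap K ε x)) • (EuclideanSpace.proj 0 : E (n + 1) →L[ℝ] ℝ)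
        + (4 * a ^ 2) • (∑ i : Fin n, (2 * x i.succ) •
          (EuclideanSpace.proj i.succ : E (n + 1) →L[ℝ] ℝ)))) x := by
  have h := (hasDerivAt_inv_sqrt hx).comp_hasFDerivAt x (hasFDerivAt_BB a K ε x)
  refine h.congr_fderiv ?_
  ext v
  simp [rr]
  ring

theorem hasFDerivAt_pp_zero (a K ε : ℝ) (x : E (n + 1)) :
    HasFDerivAt (fun x : E (n + 1) => pp a K ε x 0)
      ((K * kap K ε x) • (EuclideanSpace.proj 0 : E (n + 1) →L[ℝ] ℝ)) x := by
  simp only [pp_zero]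
  refine ((hasFDerivAt_kap K ε x).const_sub 1).congr_fderiv ?_
  ext v
  simp

theorem hasFDerivAt_pp_succ (a K ε : ℝ) (x : E (n + 1)) (i : Fin n) :
    HasFDerivAt (fun x : E (n + 1) => pp a K ε x i.succ)
      ((-(2 * a)) • (EuclideanSpace.proj i.succ : E (n + 1) →L[ℝ] ℝ)) x := by
  simp only [pp_succ]
  refine ((hasFDerivAt_coord i.succ x).const_mul (2 * a)).neg.congr_fderiv ?_
  ext v
  simp

theorem fderiv_gg_zero (a K ε : ℝ) {x : E (n + 1)} (hx : 0 < BB a K ε x) :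
    fderiv ℝ (gg a K ε 0) x (EuclideanSpace.single 0 1) =
      (rr a K ε x) ^ 3 * (K * kap K ε x * (1 - 4 * a ^ 2 * qq x)) := by
  have h := (hasFDerivAt_pp_zero a K ε x).mul (hasFDerivAt_rr a K ε hx)
  have h' : HasFDerivAt (gg a K ε 0 : E (n + 1) → ℝ) _ x := h
  rw [h'.fderiv]
  simp only [add_apply, smul_apply, proj_apply', smul_eq_mul, sum_apply]
  have h0 : (EuclideanSpace.single (0 : Fin (n + 1)) (1 : ℝ)) 0 = 1 := by simp
  have h1 : ∀ i : Fin n, (EuclideanSpace.single (0 : Fin (n + 1)) (1 : ℝ)) i.succ = 0 := by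
    intro i; simp
  simp only [h0, h1, mul_zero, Finset.sum_const_zero, add_zero, mul_one]
  rw [pp_zero]
  have hr : (rr a K ε x) = (rr a K ε x) ^ 3 * BB a K ε x := by
    unfold rr
    have h2 : √(BB a K ε x) ≠ 0 := (Real.sqrt_pos.mpr hx).ne'
    have h3 : BB a K ε x = (√(BB a K ε x)) ^ 2 := (Real.sq_sqrt hx.le).symm
    rw [h3, Real.sqrt_sq (Real.sqrt_nonneg _)]
    field_simp
  nth_rewrite 2 [hr]
  unfold BB
  ring

theorem fderiv_gg_succ (a K ε : ℝ) {x : E (n + 1)} (hx : 0 < BB a K ε x) (i : Fin n) :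
    fderiv ℝ (gg a K ε i.succ) x (EuclideanSpace.single i.succ 1) =
      (rr a K ε x) ^ 3 * (-(2 * a) * BB a K ε x - 8 * a ^ 3 * (x i.succ) ^ 2) := by
  have h := (hasFDerivAt_pp_succ a K ε x i).mul (hasFDerivAt_rr a K ε hx)
  have h' : HasFDerivAt (gg a K ε i.succ : E (n + 1) → ℝ) _ x := h
  rw [h'.fderiv]
  simp only [add_apply, smul_apply, proj_apply', smul_eq_mul, sum_apply]
  have h0 : (EuclideanSpace.single (i.succ : Fin (n + 1)) (1 : ℝ)) 0 = 0 := by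
    simp
  have h1 : ∀ j : Fin n, (EuclideanSpace.single (i.succ : Fin (n + 1)) (1 : ℝ)) j.succ
      = if j = i then 1 else 0 := by
    intro j
    simp [Fin.succ_inj]
  simp only [h0, h1, mul_zero, zero_add, mul_ite, mul_one, Finset.sum_ite_eq', Finset.mem_univ,
    if_pos]
  rw [pp_succ]
  have hr : (rr a K ε x) = (rr a K ε x) ^ 3 * BB a K ε x := by
    unfold rr
    have h2 : √(BB a K ε x) ≠ 0 := (Real.sqrt_pos.mpr hx).ne'
    have h3 : BB a K ε x = (√(BB a K ε x)) ^ 2 := (Real.sq_sqrt hx.le).symm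
    rw [h3, Real.sqrt_sq (Real.sqrt_nonneg _)]
    field_simp
  nth_rewrite 2 [hr]
  ring

/-- The divergence of the flux. -/
theorem div_gg (a K ε : ℝ) {x : E (n + 1)} (hx : 0 < BB a K ε x) :
    ∑ i, fderiv ℝ (gg a K ε i) x (EuclideanSpace.single i 1) =
      (rr a K ε x) ^ 3 * (K * kap K ε x * (1 - 4 * a ^ 2 * qq x) - 2 * a * n * BB a K ε x
        - 8 * a ^ 3 * qq x) := by
  rw [Fin.sum_univ_succ, fderiv_gg_zero a K ε hx]
  simp only [fderiv_gg_succ a K ε hx]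
  rw [← Finset.mul_sum, Finset.sum_sub_distrib, ← Finset.mul_sum, ← Finset.mul_sum]
  simp only [Finset.sum_const, Finset.card_univ, Fintype.card_fin, nsmul_eq_mul]
  unfold qq
  ring

theorem contDiffOn_gg (a K ε : ℝ) (i : Fin (n + 1)) :
    ContDiffOn ℝ 1 (gg a K ε i : E (n + 1) → ℝ) {x | 0 < BB a K ε x} := by
  unfold gg rr
  refine (contDiff_pp a K ε i).contDiffOn.mul ?_
  refine ContDiffOn.inv ?_ ?_
  · intro x hx
    exact ((contDiff_BB a K ε).contDiffAt.sqrt (ne_of_gt hx)).contDiffWithinAt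
  · intro x hx
    exact (Real.sqrt_pos.mpr hx).ne'

end Pool.Agent.H229.BI
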