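import Pool.Agent.H229.BI.Basic

open MeasureTheory Set Filter Topology Metric
open scoped NNReal ENNReal

namespace Pool.Agent.H229.BI

variable {E : Type*} [NormedAddCommGroup E] [NormedSpace ℝ E] [FiniteDimensional ℝ E]
    [MeasurableSpace E] [BorelSpace E]

/-- If a property holds almost everywhere then it holds at almost every point of almost every
parallel line. -/
theorem ae_ae_line (μ : Measure E) [μ.IsAddHaarMeasure] {P : E → Prop} (hP : ∀ᵐ z ∂μ, P z)
    (x v : E) : ∀ᵐ h ∂μ, ∀ᵐ t : ℝ, P (x + h + t • v) := by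
  obtain ⟨N, hN, hNm, hN0⟩ := exists_measurable_superset_of_null (ae_iff.mp hP)
  have hmeas : MeasurableSet {p : E × ℝ | x + p.1 + p.2 • v ∉ N} := by
    have hc : Measurable fun p : E × ℝ => x + p.1 + p.2 • v := by fun_prop
    exact (hc hNm).compl
  have h1 : ∀ᵐ h ∂μ, ∀ᵐ t : ℝ, x + h + t • v ∉ N := by
    rw [Measure.ae_ae_comm hmeas]
    refine Eventually.of_forall fun t => ?_
    rw [ae_iff]
    simp only [not_not]
    have : {a | x + a + t • v ∈ N} = (fun a => a + (x + t • v)) ⁻¹' N := by
      ext a; simp only [mem_ofPred_eq, mem_preimage]; rw [show x + a + t • v = a + (x + t • v) by abel]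
    rw [this, measure_preimage_add_right, hN0]
  filter_upwards [h1] with h hh
  filter_upwards [hh] with t ht
  by_contra hcon
  exact ht (hN hcon)

/-- A locally Lipschitz function with a.e. gradient of norm at most one is `1`-Lipschitz along
segments. -/
theorem abs_sub_le_of_segment (μ : Measure E) [μ.IsAddHaarMeasure] {Ω : Set E} (hΩ : IsOpen Ω)
    {u : E → ℝ} (hu : LocallyLipschitzOn Ω u)
    (hae : ∀ᵐ x ∂(μ.restrict Ω), ‖fderiv ℝ u x‖ ≤ 1) {x y : E} (hxy : segment ℝ x y ⊆ Ω) :
    |u x - u y| ≤ ‖x - y‖ := by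
  have hSc : IsCompact (segment ℝ x y) := by
    rw [segment_eq_image_lineMap]
    exact isCompact_Icc.image AffineMap.lineMap_continuous
  obtain ⟨δ, hδ, hK⟩ := hSc.exists_cthickening_subset_open hΩ hxy
  have hKc : IsCompact (cthickening δ (segment ℝ x y)) := hSc.cthickening
  obtain ⟨C, hC⟩ := LocallyLipschitzOn.exists_lipschitzOnWith_of_compact hKc (hu.mono hK)
  obtain ⟨w, hw, hwu⟩ := hC.extend_real
  set S := segment ℝ x y with hS
  have hthick : IsOpen (thickening δ S) := isOpen_thickening
  have hsub : thickening δ S ⊆ cthickening δ S := thickening_subset_cthickening δ S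
  set v := y - x with hv
  -- almost everywhere properties of the extension
  have hP : ∀ᵐ z ∂μ, z ∈ thickening δ S → DifferentiableAt ℝ w z ∧ ‖fderiv ℝ w z‖ ≤ 1 := by
    have h1 := hw.ae_differentiableAt (μ := μ)
    have h2 : ∀ᵐ z ∂μ, z ∈ Ω → ‖fderiv ℝ u z‖ ≤ 1 := (ae_restrict_iff' hΩ.measurableSet).mp hae
    filter_upwards [h1, h2] with z hz1 hz2 hzS
    refine ⟨hz1, ?_⟩
    have he : w =ᶠ[𝓝 z] u := by
      filter_upwards [hthick.mem_nhds hzS] with z' hz'
      exact (hwu (hsub hz')).symm
    rw [he.fderiv_eq]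
    exact hz2 (hK (hsub hzS))
  have hline := ae_ae_line μ hP x v
  have hball : ∀ᵐ h ∂μ, ‖h‖ < δ → |w (y + h) - w (x + h)| ≤ ‖v‖ := by
    filter_upwards [hline] with h hh hhδ
    set g : ℝ → ℝ := fun t => w (x + h + t • v) with hg
    have hgl : LipschitzWith (C * (1 * ‖v‖₊)) g := by
      have haff : LipschitzWith (1 * ‖v‖₊) (fun t : ℝ => x + h + t • v) := by
        refine LipschitzWith.of_dist_le_mul fun s t => ?_
        rw [dist_add_left, dist_eq_norm, ← sub_smul, norm_smul, Real.dist_eq, Real.norm_eq_abs]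
        simp only [NNReal.coe_mul, NNReal.coe_one, coe_nnnorm, one_mul]
        rw [mul_comm]
      exact hw.comp haff
    have hac : AbsolutelyContinuousOnInterval g 0 1 :=
      (hgl.lipschitzOnWith (s := uIcc (0:ℝ) 1)).absolutelyContinuousOnInterval
    have hint := hac.integral_deriv_eq_sub
    have hbd : ‖∫ t in (0:ℝ)..1, deriv g t‖ ≤ ‖v‖ * |1 - 0| := by
      apply intervalIntegral.norm_integral_le_of_norm_le_const_ae
      filter_upwards [hh] with t ht htI
      rw [uIoc_of_le zero_le_one] at htI
      have hmem : x + h + t • v ∈ thickening δ S := by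
        rw [mem_thickening_iff]
        refine ⟨x + t • v, ?_, ?_⟩
        · rw [hS, segment_eq_image']
          exact ⟨t, ⟨htI.1.le, htI.2⟩, rfl⟩
        · rw [dist_eq_norm, show x + h + t • v - (x + t • v) = h by abel]; exact hhδ
      obtain ⟨hd, hn⟩ := ht hmem
      have hder : HasDerivAt g (fderiv ℝ w (x + h + t • v) v) t := by
        have h1 : HasDerivAt (fun t : ℝ => x + h + t • v) v t := by
          simpa using ((hasDerivAt_id t).smul_const v).const_add (x + h)
        exact hd.hasFDerivAt.comp_hasDerivAt t h1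
      rw [hder.deriv]
      calc ‖fderiv ℝ w (x + h + t • v) v‖ ≤ ‖fderiv ℝ w (x + h + t • v)‖ * ‖v‖ :=
            ContinuousLinearMap.le_opNorm _ _
        _ ≤ 1 * ‖v‖ := by gcongr
        _ = ‖v‖ := one_mul _
    rw [hint] at hbd
    have e1 : g 1 = w (y + h) := by
      simp only [hg, one_smul, hv]; congr 1; abel
    have e0 : g 0 = w (x + h) := by simp only [hg, zero_smul, add_zero]
    rw [e1, e0] at hbd
    simpa using hbd
  -- by continuity
  have hfin : |w y - w x| ≤ ‖v‖ := by
    by_contra hcon
    push Not at hcon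
    set U : Set E := {h | ‖h‖ < δ} ∩ {h | ‖v‖ < |w (y + h) - w (x + h)|} with hU
    have hUo : IsOpen U := by
      refine (isOpen_lt continuous_norm continuous_const).inter (isOpen_lt continuous_const ?_)
      exact ((hw.continuous.comp (by fun_prop)).sub (hw.continuous.comp (by fun_prop))).abs
    have h0 : (0 : E) ∈ U := by
      refine ⟨by simpa using hδ, ?_⟩
      simpa using hcon
    have hpos := hUo.measure_pos μ ⟨0, h0⟩
    have hzero : μ U = 0 := by
      refine measure_mono_null ?_ (ae_iff.mp hball)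
      rintro h ⟨h1, h2⟩
      simp only [mem_ofPred_eq, not_forall, not_le]
      exact ⟨h1, h2⟩
    exact absurd hzero hpos.ne'
  have hx : u x = w x := hwu (self_subset_cthickening S (left_mem_segment ℝ x y))
  have hy : u y = w y := hwu (self_subset_cthickening S (right_mem_segment ℝ x y))
  rw [hx, hy, abs_sub_comm, norm_sub_rev]
  exact hfin

end Pool.Agent.H229.BI
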