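import Pool.Agent.H229.BI.Scal
import Pool.Agent.H229.BI.Seg

open MeasureTheory Set Filter Topology Metric
open scoped NNReal ENNReal RealInnerProductSpace

namespace Pool.Agent.H229.BI

variable {n : ℕ}

/-- local minimality with respect to compactly supported Lipschitz perturbations -/
def LocMin {m : ℕ} (O : Set (E m)) (ρ U : E m → ℝ) : Prop :=
  ∀ (V : E m → ℝ) (C : ℝ≥0), LipschitzWith C V → HasCompactSupport V → tsupport V ⊆ O →
    (∀ᵐ x ∂(volume.restrict O), ‖fderiv ℝ (fun y => U y + V y) x‖ ≤ 1) →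
    ∫ x in O, ρ x * V x ≤
      ∫ x in O, (√(1 - ‖fderiv ℝ U x‖ ^ 2) - √(1 - ‖fderiv ℝ (fun y => U y + V y) x‖ ^ 2))

/-- a thick tube -/
def TT (n : ℕ) (s0 s1 R : ℝ) : Set (E (n + 1)) := {x | s0 ≤ x 0 ∧ x 0 ≤ s1 ∧ qq x ≤ R ^ 2}

theorem convex_TT (s0 s1 R : ℝ) : Convex ℝ (TT n s0 s1 R) := by
  intro x hx y hy a b ha hb hab
  have h0 : (a • x + b • y) 0 = a * x 0 + b * y 0 := rfl
  refine ⟨?_, ?_, ?_⟩
  · rw [h0]
    have h1 := mul_le_mul_of_nonneg_left hx.1 ha
    have h2 := mul_le_mul_of_nonneg_left hy.1 hb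
    have : s0 = a * s0 + b * s0 := by rw [← add_mul, hab, one_mul]
    linarith
  · rw [h0]
    have h1 := mul_le_mul_of_nonneg_left hx.2.1 ha
    have h2 := mul_le_mul_of_nonneg_left hy.2.1 hb
    have : s1 = a * s1 + b * s1 := by rw [← add_mul, hab, one_mul]
    linarith
  · have h3 : qq (a • x + b • y) ≤ a * qq x + b * qq y := by
      unfold qq
      rw [Finset.mul_sum, Finset.mul_sum, ← Finset.sum_add_distrib]
      refine Finset.sum_le_sum fun i _ => ?_
      have : (a • x + b • y) i.succ = a * x i.succ + b * y i.succ := rfl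
      rw [this]
      have hb' : b = 1 - a := by linarith
      subst hb'
      nlinarith [mul_nonneg (mul_nonneg ha hb) (sq_nonneg (x i.succ - y i.succ))]
    have h1 := mul_le_mul_of_nonneg_left hx.2.2 ha
    have h2 := mul_le_mul_of_nonneg_left hy.2.2 hb
    have : R ^ 2 = a * R ^ 2 + b * R ^ 2 := by rw [← add_mul, hab, one_mul]
    linarith

theorem isCompact_TT (s0 s1 R : ℝ) : IsCompact (TT n s0 s1 R) := by
  refine Metric.isCompact_of_isClosed_isBounded ?_ ?_
  · exact (isClosed_le continuous_const (continuous_coord 0)).inter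
      ((isClosed_le (continuous_coord 0) continuous_const).inter
      (isClosed_le continuous_qq continuous_const))
  · refine (Metric.isBounded_closedBall (x := (0 : E (n + 1)))
      (r := √((|s0| + |s1|) ^ 2 + R ^ 2))).subset fun x hx => ?_
    rw [mem_closedBall_zero_iff]
    refine Real.le_sqrt_of_sq_le ?_
    rw [norm_sq]
    have h2 : (x 0) ^ 2 ≤ (|s0| + |s1|) ^ 2 := by
      apply sq_le_sq'
      · have := neg_abs_le s0; have := hx.1; have := abs_nonneg s1; linarith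
      · have := hx.2.1; have := le_abs_self s1; have := abs_nonneg s0; linarith
    have := hx.2.2
    linarith

theorem exists_TT_subset {O : Set (E (n + 1))} (hO : IsOpen O) {ell t0 : ℝ}
    (hseg : ∀ s ∈ Icc (-t0) ell, (EuclideanSpace.single 0 s : E (n + 1)) ∈ O)
    (hle : -t0 ≤ ell) : ∃ δ > 0, TT n (-t0 - δ) ell δ ⊆ O := by
  set S : Set (E (n + 1)) := (fun s : ℝ => (EuclideanSpace.single 0 s : E (n + 1))) '' Icc (-t0) ell
    with hS
  have hcont : Continuous fun s : ℝ => (EuclideanSpace.single 0 s : E (n + 1)) := by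
    have : (fun s : ℝ => (EuclideanSpace.single 0 s : E (n + 1))) =
        fun s : ℝ => s • (EuclideanSpace.single 0 (1 : ℝ) : E (n + 1)) := by
      ext s i; simp
    rw [this]; fun_prop
  have hSc : IsCompact S := isCompact_Icc.image hcont
  have hSO : S ⊆ O := by
    rintro _ ⟨s, hs, rfl⟩; exact hseg s hs
  obtain ⟨δ, hδ, hK⟩ := hSc.exists_cthickening_subset_open hO hSO
  refine ⟨δ / 2, by positivity, ?_⟩
  refine Subset.trans ?_ hK
  rintro x ⟨h1, h2, h3⟩
  have key : ∀ s ∈ Icc (-t0) ell, |x 0 - s| ≤ δ / 2 → x ∈ cthickening δ S := by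
    intro s hs hxs
    refine mem_cthickening_of_dist_le x (EuclideanSpace.single 0 s) δ S ⟨s, hs, rfl⟩ ?_
    rw [dist_eq_norm]
    refine le_of_sq_le_sq ?_ hδ.le
    rw [norm_sub_single_sq]
    have : (x 0 - s) ^ 2 ≤ (δ / 2) ^ 2 := sq_le_sq' (abs_le.mp hxs).1 (abs_le.mp hxs).2
    nlinarith
  rcases le_total (-t0) (x 0) with h | h
  · exact key (x 0) ⟨h, h2⟩ (by rw [sub_self, abs_zero]; positivity)
  · refine key (-t0) ⟨le_rfl, hle⟩ ?_
    rw [abs_le]; constructor <;> linarith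

theorem Dat.norm_fderiv_add_le {w : E (n + 1) → ℝ} {ell t0 γ K ε : ℝ}
    (D : Dat n w ell t0 γ K ε) {U : E (n + 1) → ℝ}
    (hU : ∀ x ∈ ZZ n ell K (ell / 2) ε t0, U =ᶠ[𝓝 x] w) {x : E (n + 1)}
    (hd : DifferentiableAt ℝ (WW w ell (2 / ell) K (ell / 2) ε t0) x)
    (hx1 : ‖fderiv ℝ U x‖ ≤ 1) :
    ‖fderiv ℝ (fun y => U y + WW w ell (2 / ell) K (ell / 2) ε t0 y) x‖ ≤ 1 := by
  rcases (Dat.WW_nonneg (w := w) (ell := ell) (K := K) (ε := ε) (t0 := t0) x (2 / ell)
    (ell / 2)).lt_or_eq with hpos | hzero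
  · have hev := D.eventuallyEq_of_pos hpos
    have hxZ : x ∈ ZZ n ell K (ell / 2) ε t0 := by
      by_contra hcon
      have : WW w ell (2 / ell) K (ell / 2) ε t0 x = 0 := indicator_of_notMem hcon _
      linarith
    have hUx := hU x hxZ
    have hsum : (fun y => U y + WW w ell (2 / ell) K (ell / 2) ε t0 y) =ᶠ[𝓝 x]
        cc (2 / ell) K (ell / 2) ε := by
      filter_upwards [hev, hUx] with y h1 h2
      rw [h1, h2]; ring
    have hc := hasGradientAt_cc (2 / ell) K (ell / 2) ε x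
    rw [hsum.fderiv_eq, hc.hasFDerivAt.fderiv]
    simp only [LinearIsometryEquiv.norm_map]
    have hBpos := D.BB_pos hxZ
    have h5 := one_sub_norm_pp_sq (2 / ell) K ε x
    have : ‖pp (2 / ell) K ε x‖ ^ 2 < 1 := by linarith
    nlinarith [norm_nonneg (pp (2 / ell) K ε x)]
  · have hmin : IsLocalMin (WW w ell (2 / ell) K (ell / 2) ε t0) x := by
      refine Eventually.of_forall fun y => ?_
      rw [← hzero]
      exact Dat.WW_nonneg y _ _
    have hf0 := hmin.fderiv_eq_zero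
    have hF : HasFDerivAt (WW w ell (2 / ell) K (ell / 2) ε t0) (0 : E (n + 1) →L[ℝ] ℝ) x := by
      rw [← hf0]; exact hd.hasFDerivAt
    rw [fderiv_add_of_hasFDerivAt_zero hF]
    exact hx1

theorem core_false (hn : 1 ≤ n) {O : Set (E (n + 1))} (hO : IsOpen O) {U ρ : E (n + 1) → ℝ}
    {ell t0 : ℝ} (hell : 0 < ell) (ht0 : 0 < t0)
    (hU : LocallyLipschitzOn O U) (hUae : ∀ᵐ x ∂(volume.restrict O), ‖fderiv ℝ U x‖ ≤ 1)
    (hseg : ∀ s ∈ Icc (-t0) ell, (EuclideanSpace.single 0 s : E (n + 1)) ∈ O)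
    (hU0 : U 0 = 0) (hUl : U (EuclideanSpace.single 0 ell) = ell)
    (hUt : -t0 < U (EuclideanSpace.single 0 (-t0)))
    (hρ : IntegrableOn ρ O)
    (hρn : ∀ Kc : Set (E (n + 1)), IsCompact Kc → Kc ⊆ O → MemLp ρ n (volume.restrict Kc))
    (hmin : LocMin O ρ U) : False := by
  obtain ⟨δ, hδ, hTO⟩ := exists_TT_subset hO hseg (by linarith)
  set T := TT n (-t0 - δ) ell δ with hT
  have hTc : IsCompact T := isCompact_TT _ _ _
  have hTconv : Convex ℝ T := convex_TT _ _ _
  have hLip : LipschitzOnWith 1 U T := by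
    refine LipschitzOnWith.of_dist_le_mul fun x hx y hy => ?_
    rw [Real.dist_eq, dist_eq_norm, NNReal.coe_one, one_mul]
    exact abs_sub_le_of_segment volume hO hU hUae ((hTconv.segment_subset hx hy).trans hTO)
  obtain ⟨w, hw, hwU⟩ := hLip.extend_real
  have hqs : ∀ s : ℝ, qq (EuclideanSpace.single 0 s : E (n + 1)) = 0 := by
    intro s; unfold qq; simp
  have hmemT : ∀ s, -t0 - δ ≤ s → s ≤ ell → (EuclideanSpace.single 0 s : E (n + 1)) ∈ T := by
    intro s h1 h2
    refine ⟨by simpa using h1, by simpa using h2, ?_⟩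
    rw [hqs]; positivity
  have h0 : (EuclideanSpace.single 0 (0:ℝ) : E (n + 1)) = 0 := by ext i; simp
  set γ := U (EuclideanSpace.single 0 (-t0)) + t0 with hγ
  have hγpos : 0 < γ := by linarith
  set K : ℝ := 16 * (n + 1) / ell with hK
  have hKpos : 0 < K := by positivity
  set M := Real.exp (K * t0) with hM
  have hMpos : 0 < M := Real.exp_pos _
  -- for small `σ` everything is fine
  have hev1 : ∀ᶠ σ : ℝ in 𝓝[>] 0, σ ^ 2 * K * M ≤ 1 / 2 := by
    have hc : Continuous fun σ : ℝ => σ ^ 2 * K * M := by fun_prop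
    have : Tendsto (fun σ : ℝ => σ ^ 2 * K * M) (𝓝 0) (𝓝 0) := by
      have := hc.tendsto 0; simpa using this
    exact (this.mono_left nhdsWithin_le_nhds).eventually (ge_mem_nhds (by norm_num))
  have hev2 : ∀ᶠ σ : ℝ in 𝓝[>] 0, σ ^ 2 * M + √(ell * σ ^ 2 * M) < γ := by
    have hc : Continuous fun σ : ℝ => σ ^ 2 * M + √(ell * σ ^ 2 * M) := by fun_prop
    have : Tendsto (fun σ : ℝ => σ ^ 2 * M + √(ell * σ ^ 2 * M)) (𝓝 0) (𝓝 0) := by
      have := hc.tendsto 0; simpa using this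
    exact (this.mono_left nhdsWithin_le_nhds).eventually (gt_mem_nhds hγpos)
  have hev3 : ∀ᶠ σ : ℝ in 𝓝[>] 0, ell * σ ^ 2 * M < δ ^ 2 := by
    have hc : Continuous fun σ : ℝ => ell * σ ^ 2 * M := by fun_prop
    have : Tendsto (fun σ : ℝ => ell * σ ^ 2 * M) (𝓝 0) (𝓝 0) := by
      have := hc.tendsto 0; simpa using this
    exact (this.mono_left nhdsWithin_le_nhds).eventually (gt_mem_nhds (by positivity))
  have hev4 : ∀ᶠ σ : ℝ in 𝓝[>] 0, 0 < σ := eventually_mem_nhdsWithin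
  have hmain : ∀ᶠ σ : ℝ in 𝓝[>] 0, Dat n w ell t0 γ K (σ ^ 2) ∧
      ZZ n ell K (ell / 2) (σ ^ 2) t0 ⊆ T ∧
      Dat.c4 n K ell t0 * (Dat.c5 n K ell t0 / (2 * Dat.c4 n K ell t0)) ^ n ≤
      ∫ x in ZZ n ell K (ell / 2) (σ ^ 2) t0, |ρ x| ^ n := by
    filter_upwards [hev1, hev2, hev3, hev4] with σ h1 h2 h3 hσ
    have D : Dat n w ell t0 γ K (σ ^ 2) := by
      refine ⟨hn, hw, hell, ht0, hγpos, ?_, ?_, ?_, ?_, by positivity, h1, h2⟩
      · rw [← hU0, ← h0]; exact (hwU (hmemT 0 (by linarith) hell.le)).symm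
      · rw [← hwU (hmemT ell (by linarith) le_rfl)]; exact hUl
      · rw [← hwU (hmemT (-t0) (by linarith) (by linarith)), hγ]; linarith
      · rw [hK]; field_simp
    have hZint : ∀ x ∈ ZZ n ell K (ell / 2) (σ ^ 2) t0, T ∈ 𝓝 x := by
      intro x hx
      have hq := qq_le_of_mem hell hKpos (by positivity) hx
      have hopen : IsOpen {x : E (n + 1) | -t0 - δ < x 0 ∧ x 0 < ell ∧ qq x < δ ^ 2} :=
        (isOpen_lt continuous_const (continuous_coord 0)).inter
          ((isOpen_lt (continuous_coord 0) continuous_const).inter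
          (isOpen_lt continuous_qq continuous_const))
      have hxin : x ∈ {x : E (n + 1) | -t0 - δ < x 0 ∧ x 0 < ell ∧ qq x < δ ^ 2} :=
        ⟨by have := hx.1; linarith, by have := hx.2.1; linarith, by linarith⟩
      refine mem_of_superset (hopen.mem_nhds hxin) ?_
      rintro y ⟨a1, a2, a3⟩
      exact ⟨a1.le, a2.le, a3.le⟩
    have hZT : ZZ n ell K (ell / 2) (σ ^ 2) t0 ⊆ T := fun x hx => mem_of_mem_nhds (hZint x hx)
    have hUw : ∀ x ∈ ZZ n ell K (ell / 2) (σ ^ 2) t0, U =ᶠ[𝓝 x] w := by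
      intro x hx
      filter_upwards [hZint x hx] with y hy
      exact hwU hy
    have hZO := hZT.trans hTO
    refine ⟨D, hZT, ?_⟩
    have hb : Dat.c5 n K ell t0 * σ ^ n ≤
        σ * ∫ x in ZZ n ell K (ell / 2) (σ ^ 2) t0, |ρ x| := by
      refine D.tube_bound hσ hO.measurableSet hZO hUw hρ ?_
      obtain ⟨C, hC⟩ := D.exists_lipschitz
      refine hmin _ C hC D.hasCompactSupport ((Dat.tsupport_subset _ _ _ _ _ _).trans hZO) ?_
      have hae := ae_restrict_of_ae (s := O) (hC.ae_differentiableAt (μ := volume))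
      filter_upwards [hae, hUae] with x hx1 hx2
      exact D.norm_fderiv_add_le hUw hx1 hx2
    refine D.power_bound hσ (hρ.mono_set hZO) ?_ hb
    have hZc : IsCompact (ZZ n ell K (ell / 2) (σ ^ 2) t0) :=
      isCompact_ZZ hell hKpos (by positivity)
    have := (hρn _ hZc hZO).integrable_norm_pow (by omega)
    simp only [Real.norm_eq_abs] at this
    exact this
  -- the contradiction
  have hint : Integrable (fun x => |ρ x| ^ n) (volume.restrict T) := by
    have := (hρn _ hTc hTO).integrable_norm_pow (by omega)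
    simpa [Real.norm_eq_abs] using this
  have hvol : Tendsto ((volume.restrict T) ∘ fun σ : ℝ => ZZ n ell K (ell / 2) (σ ^ 2) t0)
      (𝓝[>] 0) (𝓝 0) := by
    have hub : ∀ᶠ σ : ℝ in 𝓝[>] 0,
        (volume.restrict T) (ZZ n ell K (ell / 2) (σ ^ 2) t0) ≤
        ENNReal.ofReal (Dat.c4 n K ell t0 * σ ^ n) := by
      filter_upwards [hmain, hev4] with σ hσ1 hσ
      obtain ⟨D, hZT, -⟩ := hσ1
      have hZc : IsCompact (ZZ n ell K (ell / 2) (σ ^ 2) t0) :=
        isCompact_ZZ hell hKpos (by positivity)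
      refine (Measure.restrict_apply_le _ _).trans ?_
      rw [← ENNReal.ofReal_toReal hZc.measure_lt_top.ne]
      exact ENNReal.ofReal_le_ofReal (D.vol_le hσ)
    have hlim : Tendsto (fun σ : ℝ => ENNReal.ofReal (Dat.c4 n K ell t0 * σ ^ n)) (𝓝[>] 0)
        (𝓝 0) := by
      have hc : Continuous fun σ : ℝ => Dat.c4 n K ell t0 * σ ^ n := by fun_prop
      have h1 : Tendsto (fun σ : ℝ => Dat.c4 n K ell t0 * σ ^ n) (𝓝 0) (𝓝 0) := by
        have := hc.tendsto 0
        rwa [zero_pow (by omega), mul_zero] at this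
      have h2 := ENNReal.tendsto_ofReal (h1.mono_left (nhdsWithin_le_nhds (s := Ioi 0)))
      rwa [ENNReal.ofReal_zero] at h2
    exact tendsto_of_tendsto_of_tendsto_of_le_of_le' tendsto_const_nhds hlim
      (Eventually.of_forall fun _ => zero_le) hub
  have hP := tendsto_setIntegral_abs_zero hint hvol
  have hc5 := Dat.c5_pos hn hell ht0 hKpos
  have hc4 := Dat.c4_pos (n := n) (K := K) hell ht0
  have hpos : 0 < Dat.c4 n K ell t0 * (Dat.c5 n K ell t0 / (2 * Dat.c4 n K ell t0)) ^ n := by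
    positivity
  have hsmall := hP.eventually (gt_mem_nhds hpos)
  obtain ⟨σ, ⟨-, hZT, hlow⟩, hσs⟩ := (hmain.and hsmall).exists
  rw [Measure.restrict_restrict_of_subset hZT] at hσs
  have : (fun x => |(|ρ x| ^ n)|) = fun x => |ρ x| ^ n := by
    ext x; exact abs_of_nonneg (by positivity)
  rw [this] at hσs
  linarith

end Pool.Agent.H229.BI
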