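import Pool.Agent.H229.BI.Transfer

open MeasureTheory Set Filter Topology Metric
open scoped NNReal ENNReal RealInnerProductSpace

namespace Pool.Agent.H229.BI

variable {n : ℕ}

/-- A linear isometry taking the first basis vector to a given unit vector. -/
theorem exists_isometry (e : E (n + 1)) (he : ‖e‖ = 1) :
    ∃ L : E (n + 1) ≃ₗᵢ[ℝ] E (n + 1), ∀ s : ℝ, L (EuclideanSpace.single 0 s) = s • e := by
  have hv : Orthonormal ℝ (({0} : Set (Fin (n + 1))).domRestrict (fun _ : Fin (n + 1) => e)) := by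
    constructor
    · intro i; exact he
    · intro i j hij
      exact absurd (Subsingleton.elim i j) hij
  obtain ⟨b, hb⟩ := hv.exists_orthonormalBasis_extension_of_card_eq (𝕜 := ℝ) (by simp)
  refine ⟨b.repr.symm, fun s => ?_⟩
  have h1 : (EuclideanSpace.single 0 s : E (n + 1)) = s • EuclideanSpace.single 0 (1 : ℝ) := by
    ext i; simp
  rw [h1, map_smul, OrthonormalBasis.repr_symm_single, hb 0 (by simp)]

/-- The one-sided statement. -/
theorem one_sided (hn : 1 ≤ n) {Ω : Set (E (n + 1))} (hΩo : IsOpen Ω) {u ρ : E (n + 1) → ℝ}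
    (hu : LocallyLipschitzOn Ω u) (huae : ∀ᵐ x ∂(volume.restrict Ω), ‖fderiv ℝ u x‖ ≤ 1)
    (hρ : IntegrableOn ρ Ω)
    (hρn : ∀ Kc : Set (E (n + 1)), IsCompact Kc → Kc ⊆ Ω → MemLp ρ n (volume.restrict Kc))
    (hmin : LocMin Ω ρ u) {x0 e : E (n + 1)} (he : ‖e‖ = 1) {ell t0 : ℝ} (hell : 0 < ell)
    (ht0 : 0 < t0) (hseg : ∀ s ∈ Icc (-t0) ell, x0 + s • e ∈ Ω)
    (hul : u (x0 + ell • e) = u x0 + ell) (hut : u x0 - t0 < u (x0 + (-t0) • e)) : False := by
  obtain ⟨L, hL⟩ := exists_isometry e he
  set H := affH L x0 with hH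
  have hO : IsOpen (H ⁻¹' Ω) := hΩo.preimage H.continuous
  have hmin' := hmin.transfer L x0 (u x0)
  have hmpr := (measurePreserving_affH L x0).restrict_preimage_emb
      (affH L x0).measurableEmbedding
  refine core_false (ρ := fun x => ρ (x0 + L x)) hn hO hell ht0 ?_ ?_ ?_ ?_ ?_ ?_ ?_ ?_ hmin'
  · -- locally Lipschitz
    intro x hx
    obtain ⟨C, t, ht, hC⟩ := hu hx
    refine ⟨C, H ⁻¹' t, ?_, ?_⟩
    · have h1 : Tendsto H (𝓝[H ⁻¹' Ω] x) (𝓝[Ω] (H x)) :=
        H.continuous.continuousAt.continuousWithinAt.tendsto_nhdsWithin (fun y hy => hy)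
      exact h1 ht
    · refine LipschitzOnWith.of_dist_le_mul fun y hy z hz => ?_
      have h2 := hC.dist_le_mul (H y) hy (H z) hz
      have h3 : dist (H y) (H z) = dist y z := by
        rw [hH, affH_apply, affH_apply, dist_add_left, L.dist_map]
      rw [h3] at h2
      rw [dist_sub_right]
      exact h2
  · have := hmpr Ω
    have h4 : ∀ᵐ x ∂(volume.restrict (H ⁻¹' Ω)), ‖fderiv ℝ u (H x)‖ ≤ 1 := by
      rw [← this.map_eq, (affH L x0).measurableEmbedding.ae_map_iff] at huae
      exact huae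
    filter_upwards [h4] with x hx
    rw [fderiv_sub_const, norm_fderiv_comp]
    exact hx
  · intro s hs
    rw [mem_preimage, hH, affH_apply, hL]
    exact hseg s hs
  · simp
  · rw [hL, hul]; ring
  · rw [hL]; linarith
  · have := (hmpr Ω).integrable_comp_emb (affH L x0).measurableEmbedding (g := ρ)
    exact this.mpr hρ
  · intro Kc hKc hKO
    have h5 : IsCompact (H '' Kc) := hKc.image H.continuous
    have h6 : H '' Kc ⊆ Ω := by
      rintro _ ⟨y, hy, rfl⟩; exact hKO hy
    have h7 := hρn _ h5 h6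
    have h8 : H ⁻¹' (H '' Kc) = Kc := preimage_image_eq _ H.injective
    have h9 := hmpr (H '' Kc)
    rw [h8] at h9
    exact h7.comp_measurePreserving h9

/-- exit points of a ray -/
theorem exists_exit {Ω : Set (E (n + 1))} (hΩo : IsOpen Ω) (hΩb : Bornology.IsBounded Ω)
    {x e : E (n + 1)} (hx : x ∈ Ω) (he : ‖e‖ = 1) :
    ∃ T : ℝ, 0 < T ∧ x + T • e ∈ frontier Ω ∧ ∀ s, 0 ≤ s → s < T → x + s • e ∈ Ω := by
  set S : Set ℝ := {s | 0 ≤ s ∧ x + s • e ∉ Ω} with hS
  have hcont : Continuous fun s : ℝ => x + s • e := by fun_prop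
  have hSc : IsClosed S := by
    refine (isClosed_le continuous_const continuous_id).inter ?_
    exact (hΩo.preimage hcont).isClosed_compl
  have hSne : S.Nonempty := by
    obtain ⟨R, hR⟩ := hΩb.subset_closedBall x
    refine ⟨|R| + 1, by positivity, fun h => ?_⟩
    have h1 := hR h
    rw [mem_closedBall, dist_eq_norm, add_sub_cancel_left, norm_smul, he, mul_one,
      Real.norm_eq_abs, abs_of_nonneg (by positivity)] at h1
    linarith [le_abs_self R]
  have hSb : BddBelow S := ⟨0, fun s hs => hs.1⟩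
  have hmem := hSc.csInf_mem hSne hSb
  set T := sInf S with hT
  have hT0 : 0 < T := by
    rcases hmem.1.lt_or_eq with h | h
    · exact h
    · exfalso
      apply hmem.2
      rw [← h]; simpa using hx
  have hin : ∀ s, 0 ≤ s → s < T → x + s • e ∈ Ω := by
    intro s hs hsT
    by_contra hcon
    exact absurd (csInf_le hSb ⟨hs, hcon⟩) (not_le.mpr hsT)
  refine ⟨T, hT0, ?_, hin⟩
  rw [hΩo.frontier_eq]
  refine ⟨?_, hmem.2⟩
  have h2 : Tendsto (fun s : ℝ => x + s • e) (𝓝[<] T) (𝓝 (x + T • e)) :=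
    (hcont.tendsto T).mono_left nhdsWithin_le_nhds
  refine mem_closure_of_tendsto h2 ?_
  filter_upwards [self_mem_nhdsWithin, (eventually_gt_nhds hT0).filter_mono nhdsWithin_le_nhds]
    with s hs1 hs2
  exact hin s hs2.le hs1

/-- No light segments. -/
theorem no_light_segment (hn : 1 ≤ n) {Ω : Set (E (n + 1))} (hΩo : IsOpen Ω)
    (hΩb : Bornology.IsBounded Ω) {φ ρ u : E (n + 1) → ℝ} (hφ : IsSpacelikeBoundary Ω φ)
    (hρ : IntegrableOn ρ Ω)
    (hρn : ∀ Kc : Set (E (n + 1)), IsCompact Kc → Kc ⊆ Ω → MemLp ρ n (volume.restrict Kc))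
    (hu : IsMinimizer Ω φ ρ u) : ¬ HasLightSegment Ω u := by
  -- first choose the orientation of the segment
  intro hls
  have hls' : ∃ x y, x ≠ y ∧ segment ℝ x y ⊆ Ω ∧ u y - u x = ‖y - x‖ := by
    obtain ⟨x, y, hxy, hseg, habs⟩ := hls
    rcases le_total 0 (u x - u y) with h | h
    · rw [abs_of_nonneg h] at habs
      exact ⟨y, x, hxy.symm, by rwa [segment_symm], habs⟩
    · rw [abs_of_nonpos h] at habs
      exact ⟨x, y, hxy, hseg, by rw [norm_sub_rev y x, ← habs]; ring⟩
  obtain ⟨x, y, hxy, hseg, hval⟩ := hls'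
  have hmin := hu.locMin hΩo hΩb hρ
  obtain ⟨⟨hc, hbd, hl, hg⟩, -⟩ := hu
  set L := ‖y - x‖ with hL
  have hLpos : 0 < L := norm_pos_iff.mpr (sub_ne_zero.mpr hxy.symm)
  set e := L⁻¹ • (y - x) with he'
  have he : ‖e‖ = 1 := by
    rw [he', norm_smul, ← hL, Real.norm_eq_abs, abs_of_pos (by positivity)]
    field_simp
  have hy : x + L • e = y := by
    rw [he', smul_smul, mul_inv_cancel₀ hLpos.ne', one_smul]; abel
  have hxΩ : x ∈ Ω := hseg (left_mem_segment ℝ x y)
  have hsegΩ : ∀ s ∈ Icc 0 L, x + s • e ∈ Ω := by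
    intro s hs
    apply hseg
    rw [segment_eq_image']
    refine ⟨s / L, ⟨div_nonneg hs.1 hLpos.le, (div_le_one hLpos).mpr hs.2⟩, ?_⟩
    simp only [he', smul_smul]
    rfl
  obtain ⟨T1, hT1, hf1, hin1⟩ := exists_exit hΩo hΩb hxΩ he
  have hne : ‖-e‖ = 1 := by rwa [norm_neg]
  obtain ⟨T2, hT2, hf2, hin2⟩ := exists_exit hΩo hΩb hxΩ hne
  have hT1L : L < T1 := by
    by_contra hcon
    push Not at hcon
    have h1 := hsegΩ T1 ⟨hT1.le, hcon⟩
    rw [hΩo.frontier_eq] at hf1
    exact hf1.2 h1
  have hin : ∀ s, -T2 < s → s < T1 → x + s • e ∈ Ω := by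
    intro s h1 h2
    rcases le_total 0 s with h | h
    · exact hin1 s h h2
    · have := hin2 (-s) (by linarith) (by linarith)
      rwa [smul_neg, neg_smul, neg_neg] at this
  rw [smul_neg] at hf2
  -- the boundary condition
  have hdist : ‖(x + T1 • e) - (x + -(T2 • e))‖ = T1 + T2 := by
    have : (x + T1 • e) - (x + -(T2 • e)) = (T1 + T2) • e := by rw [add_smul]; abel
    rw [this, norm_smul, he, mul_one, Real.norm_eq_abs, abs_of_pos (by linarith)]
  have hpne : x + T1 • e ≠ x + -(T2 • e) := by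
    intro h
    rw [h, sub_self, norm_zero] at hdist
    linarith
  have hφ1 := hφ.2 _ hf1 _ hf2 hpne
  have hopen : openSegment ℝ (x + T1 • e) (x + -(T2 • e)) ⊆ Ω := by
    rw [openSegment_eq_image']
    rintro _ ⟨t, ⟨ht0, ht1⟩, rfl⟩
    have : x + T1 • e + t • (x + -(T2 • e) - (x + T1 • e)) = x + (T1 - t * (T1 + T2)) • e := by
      rw [sub_smul, mul_smul, add_smul]
      simp only [smul_sub, smul_add, smul_neg]
      abel
    simp only [this]
    exact hin _ (by nlinarith) (by nlinarith)
  have hinner : innerDist Ω (x + T1 • e) (x + -(T2 • e)) ≤ ENNReal.ofReal (T1 + T2) := by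
    unfold innerDist
    set p : ℕ → E (n + 1) := fun i => if i = 0 then x + T1 • e else x + -(T2 • e) with hp
    have hpath : IsPolygonalPath Ω (x + T1 • e) (x + -(T2 • e)) 1 p := by
      refine ⟨by simp [hp], by simp [hp], le_rfl, ?_, ?_⟩
      · intro i hi
        have : i = 0 := by omega
        subst this
        simpa [hp] using hopen
      · intro i h1 h2; omega
    refine (iInf_le _ 1).trans ((iInf_le _ p).trans ((iInf_le _ hpath).trans ?_))
    rw [Finset.sum_range_one, dist_eq_norm]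
    simp only [hp, if_true, zero_add, one_ne_zero, if_false]
    rw [hdist]
  have hφ2 : |φ (x + T1 • e) - φ (x + -(T2 • e))| < T1 + T2 := by
    have := hφ1.trans_le hinner
    exact (ENNReal.ofReal_lt_ofReal_iff (by linarith)).mp this
  have hφ3 : u (x + T1 • e) - u (x + (-T2) • e) < T1 + T2 := by
    rw [neg_smul, hbd _ hf1, hbd _ hf2]
    exact (le_abs_self _).trans_lt hφ2
  -- slope one on the segment
  have hslope : ∀ s ∈ Icc 0 L, u (x + s • e) = u x + s := by
    intro s hs
    have h1 := abs_sub_le_of_segment volume hΩo hl hg (x := x) (y := x + s • e) (by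
      refine Subset.trans ?_ hseg
      refine (convex_segment x y).segment_subset (left_mem_segment ℝ x y) ?_
      rw [segment_eq_image']
      refine ⟨s / L, ⟨div_nonneg hs.1 hLpos.le, (div_le_one hLpos).mpr hs.2⟩, ?_⟩
      simp only [he', smul_smul]
      rfl)
    have h2 := abs_sub_le_of_segment volume hΩo hl hg (x := x + s • e) (y := y) (by
      refine Subset.trans ?_ hseg
      refine (convex_segment x y).segment_subset ?_ (right_mem_segment ℝ x y)
      rw [segment_eq_image']
      refine ⟨s / L, ⟨div_nonneg hs.1 hLpos.le, (div_le_one hLpos).mpr hs.2⟩, ?_⟩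
      simp only [he', smul_smul]
      rfl)
    have e1 : ‖x - (x + s • e)‖ = s := by
      rw [sub_add_cancel_left, norm_neg, norm_smul, he, mul_one, Real.norm_eq_abs,
        abs_of_nonneg hs.1]
    have e2 : ‖x + s • e - y‖ = L - s := by
      rw [← hy]
      have : x + s • e - (x + L • e) = -((L - s) • e) := by rw [sub_smul]; abel
      rw [this, norm_neg, norm_smul, he, mul_one, Real.norm_eq_abs,
        abs_of_nonneg (by linarith [hs.2])]
    rw [e1] at h1
    rw [e2] at h2
    have := abs_le.mp h1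
    have := abs_le.mp h2
    linarith
  -- continuity of `u` along the line at the end points
  have hcontl : ContinuousOn (fun s : ℝ => u (x + s • e)) (Icc (-T2) T1) := by
    refine hc.comp (by fun_prop) fun s hs => ?_
    rcases hs.1.lt_or_eq with h | h
    · rcases hs.2.lt_or_eq with h' | h'
      · exact subset_closure (hin s h h')
      · rw [h']; exact frontier_subset_closure hf1
    · rw [← h, neg_smul]; exact frontier_subset_closure hf2
  by_cases hleft : ∃ s, 0 < s ∧ s < T2 ∧ u x - s < u (x + (-s) • e)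
  · -- left case
    obtain ⟨t0, ht0, ht0', hlt⟩ := hleft
    refine one_sided hn hΩo hl hg hρ hρn hmin he hLpos ht0 ?_ ?_ hlt
    · intro s hs
      exact hin s (by linarith [hs.1]) (by linarith [hs.2])
    · exact hslope L ⟨hLpos.le, le_rfl⟩
  · push Not at hleft
    -- then the value at the left end point is at most `u x - T2`
    have hleft' : u (x + (-T2) • e) ≤ u x - T2 := by
      have h1 : Tendsto (fun s : ℝ => u (x + s • e)) (𝓝[Ioo (-T2) 0] (-T2))
          (𝓝 (u (x + (-T2) • e))) := by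
        have := hcontl (-T2) ⟨le_rfl, by linarith⟩
        exact this.mono_left (nhdsWithin_mono _ fun s hs => ⟨hs.1.le, by linarith [hs.2]⟩)
      have h2 : Tendsto (fun s : ℝ => u x + s) (𝓝[Ioo (-T2) 0] (-T2)) (𝓝 (u x + -T2)) := by
        have : Continuous fun s : ℝ => u x + s := by fun_prop
        exact (this.tendsto _).mono_left nhdsWithin_le_nhds
      have hne : (𝓝[Ioo (-T2) 0] (-T2)).NeBot := by
        rw [← mem_closure_iff_nhdsWithin_neBot, closure_Ioo (by linarith)]
        exact ⟨le_rfl, by linarith⟩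
      have h3 := le_of_tendsto_of_tendsto h1 h2 (by
        filter_upwards [self_mem_nhdsWithin] with s hs
        have := hleft (-s) (by linarith [hs.2]) (by linarith [hs.1])
        rw [neg_neg] at this
        linarith)
      linarith
    have hright' : u (x + T1 • e) < u x + T1 := by linarith
    -- by continuity
    have h1 : Tendsto (fun s : ℝ => u (x + s • e)) (𝓝[Ioo L T1] T1) (𝓝 (u (x + T1 • e))) := by
      have := hcontl T1 ⟨by linarith, le_rfl⟩
      exact this.mono_left (nhdsWithin_mono _ fun s hs => ⟨by linarith [hs.1], hs.2.le⟩)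
    have h2 : Tendsto (fun s : ℝ => u x + s) (𝓝[Ioo L T1] T1) (𝓝 (u x + T1)) := by
      have : Continuous fun s : ℝ => u x + s := by fun_prop
      exact (this.tendsto _).mono_left nhdsWithin_le_nhds
    have hne : (𝓝[Ioo L T1] T1).NeBot := by
      rw [← mem_closure_iff_nhdsWithin_neBot, closure_Ioo (by linarith)]
      exact ⟨hT1L.le, le_rfl⟩
    have h3 := h1.eventually_lt h2 hright'
    obtain ⟨t1, ht1, hlt, hlt'⟩ : ∃ t1, t1 < T1 ∧ L < t1 ∧ u (x + t1 • e) < u x + t1 := by
      obtain ⟨t1, h4, h5⟩ := (h3.and self_mem_nhdsWithin).exists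
      exact ⟨t1, h5.2, h5.1, h4⟩
    have huy : u y = u x + L := by
      rw [← hy]; exact hslope L ⟨hLpos.le, le_rfl⟩
    have hline : ∀ s : ℝ, y + s • (-e) = x + (L - s) • e := by
      intro s
      rw [← hy, sub_smul, smul_neg]; abel
    refine one_sided (u := fun x => -u x) (ρ := fun x => -ρ x) hn hΩo ?_ ?_ hρ.neg ?_ hmin.neg
      (x0 := y) (e := -e) (by rwa [norm_neg]) hLpos (t0 := t1 - L) (by linarith) ?_ ?_ ?_
    · intro z hz
      obtain ⟨C, t, ht, hC⟩ := hl hz
      exact ⟨C, t, ht, hC.neg⟩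
    · filter_upwards [hg] with z hz
      rw [fderiv_fun_neg, norm_neg]
      exact hz
    · intro Kc h1 h2
      exact (hρn Kc h1 h2).neg
    · intro s hs
      rw [hline]
      exact hin _ (by linarith [hs.2]) (by linarith [hs.1])
    · simp only [hline]
      rw [sub_self, zero_smul, add_zero, huy]
      ring
    · simp only [hline]
      rw [show L - -(t1 - L) = t1 by ring, huy]
      linarith

end Pool.Agent.H229.BI
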