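import Pool.Agent.H229.BI.Vol

open MeasureTheory Set Filter Topology Metric
open scoped NNReal ENNReal RealInnerProductSpace

namespace Pool.Agent.H229.BI

variable {n : ℕ}

theorem tendsto_setIntegral_abs_zero {X ι : Type*} [MeasurableSpace X] {μ : Measure X}
    {f : X → ℝ} (hf : Integrable f μ) {l : Filter ι} {s : ι → Set X}
    (hs : Tendsto (μ ∘ s) l (𝓝 0)) : Tendsto (fun i => ∫ x in s i, |f x| ∂μ) l (𝓝 0) := by
  have h1 : ∫⁻ x, ‖f x‖ₑ ∂μ ≠ ⊤ := hf.2.ne
  have h2 := tendsto_setLIntegral_zero h1 hs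
  have h3 : (fun i => ∫ x in s i, |f x| ∂μ) = fun i => (∫⁻ x in s i, ‖f x‖ₑ ∂μ).toReal := by
    ext i
    have := integral_norm_eq_lintegral_enorm (μ := μ.restrict (s i)) hf.1.restrict
    simpa [Real.norm_eq_abs] using this
  rw [h3]
  have := (ENNReal.tendsto_toReal ENNReal.zero_ne_top).comp h2
  rw [ENNReal.toReal_zero] at this
  exact this

namespace Dat

/-- radius constant -/
noncomputable def r0 (n : ℕ) (K ell : ℝ) : ℝ := √(ell * T1 K ell / (12 * n))

/-- lower mass constant -/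
noncomputable def c3 (n : ℕ) (K ell : ℝ) : ℝ :=
  (T1 K ell / 2) * ((ell / 8) * (2 * r0 n K ell) ^ n)

/-- volume constant -/
noncomputable def c4 (n : ℕ) (K ell t0 : ℝ) : ℝ :=
  (ell / 2 + t0) * (2 * √(ell * Real.exp (K * t0))) ^ n

/-- splitting constant -/
noncomputable def eta (n : ℕ) (K ell t0 : ℝ) : ℝ :=
  ell * Real.exp (K * t0) * c4 n K ell t0 / (2 * c3 n K ell)

/-- final constant -/
noncomputable def c5 (n : ℕ) (K ell t0 : ℝ) : ℝ :=
  c3 n K ell / (4 * eta n K ell t0 * √(2 * (K * Real.exp (K * t0))) * Real.exp (K * t0))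

variable {w : E (n + 1) → ℝ} {ell t0 γ K σ : ℝ}

theorem c3_pos (hn : 1 ≤ n) (hell : 0 < ell) (hK : 0 < K) : 0 < c3 n K ell := by
  have h1 : 0 < T1 K ell := by
    unfold T1
    have : Real.exp (-K * (ell / 2)) < Real.exp (-K * (ell / 4)) := by
      apply Real.exp_lt_exp.mpr; nlinarith
    linarith
  have h2 : (0 : ℝ) < n := by exact_mod_cast hn
  have h3 : 0 < r0 n K ell := by unfold r0; positivity
  unfold c3
  positivity

theorem c4_pos (hell : 0 < ell) (ht0 : 0 < t0) : 0 < c4 n K ell t0 := by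
  unfold c4
  positivity

theorem eta_pos (hn : 1 ≤ n) (hell : 0 < ell) (ht0 : 0 < t0) (hK : 0 < K) :
    0 < eta n K ell t0 := by
  have h1 := c3_pos hn hell hK
  have h2 := c4_pos (n := n) (K := K) hell ht0
  unfold eta
  positivity

theorem c5_pos (hn : 1 ≤ n) (hell : 0 < ell) (ht0 : 0 < t0) (hK : 0 < K) :
    0 < c5 n K ell t0 := by
  have h1 := c3_pos hn hell hK
  have h2 := eta_pos hn hell ht0 hK
  unfold c5
  positivity

theorem vol_le (D : Dat n w ell t0 γ K (σ ^ 2)) (hσ : 0 < σ) :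
    volume.real (ZZ n ell K (ell / 2) (σ ^ 2) t0) ≤ c4 n K ell t0 * σ ^ n := by
  refine D.volume_ZZ_le.trans (le_of_eq ?_)
  unfold c4
  have h : √(ell * σ ^ 2 * Real.exp (K * t0)) = √(ell * Real.exp (K * t0)) * σ := by
    rw [show ell * σ ^ 2 * Real.exp (K * t0) = (ell * Real.exp (K * t0)) * σ ^ 2 by ring,
      Real.sqrt_mul (by have := D.hell; positivity), Real.sqrt_sq hσ.le]
  rw [h, show 2 * (√(ell * Real.exp (K * t0)) * σ) = (2 * √(ell * Real.exp (K * t0))) * σ by ring,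
    mul_pow]
  ring

theorem tube_bound (D : Dat n w ell t0 γ K (σ ^ 2)) (hσ : 0 < σ) {O : Set (E (n + 1))}
    (hO : MeasurableSet O) (hZO : ZZ n ell K (ell / 2) (σ ^ 2) t0 ⊆ O) {U ρ : E (n + 1) → ℝ}
    (hU : ∀ x ∈ ZZ n ell K (ell / 2) (σ ^ 2) t0, U =ᶠ[𝓝 x] w) (hρ : IntegrableOn ρ O)
    (hmin : ∫ x in O, ρ x * WW w ell (2 / ell) K (ell / 2) (σ ^ 2) t0 x ≤
      ∫ x in O, (√(1 - ‖fderiv ℝ U x‖ ^ 2) -
      √(1 - ‖fderiv ℝ (fun y => U y + WW w ell (2 / ell) K (ell / 2) (σ ^ 2) t0 y) x‖ ^ 2))) :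
    c5 n K ell t0 * σ ^ n ≤ σ * ∫ x in ZZ n ell K (ell / 2) (σ ^ 2) t0, |ρ x| := by
  have hn := D.hn
  have hell := D.hell
  have ht0 := D.ht0
  have hK := D.K_pos
  have h1 := D.energy_le hO hZO hU hρ hmin
  have h2 := D.integral_WW_le (eta_pos hn hell ht0 hK)
  have hT := D.T1_pos
  have hnp : (0 : ℝ) < n := by exact_mod_cast hn
  have h3 := D.integral_WW_ge (R := r0 n K ell * σ) (by unfold r0; positivity) (by
    unfold r0
    rw [mul_pow, Real.sq_sqrt (by positivity)]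
    apply le_of_eq
    field_simp)
  have h4 := D.vol_le hσ
  set I := ∫ x, ‖fderiv ℝ (WW w ell (2 / ell) K (ell / 2) (σ ^ 2) t0) x‖ ^ 2
  set J := ∫ x in ZZ n ell K (ell / 2) (σ ^ 2) t0, |ρ x|
  set W1 := ∫ x, WW w ell (2 / ell) K (ell / 2) (σ ^ 2) t0 x
  set Vol := volume.real (ZZ n ell K (ell / 2) (σ ^ 2) t0)
  have h3' : c3 n K ell * σ ^ 2 * σ ^ n ≤ W1 := by
    refine le_trans (le_of_eq ?_) h3
    unfold c3
    rw [show 2 * (r0 n K ell * σ) = (2 * r0 n K ell) * σ by ring, mul_pow]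
    ring
  have hc3 := c3_pos hn hell hK
  have hc4 := c4_pos (n := n) (K := K) hell ht0
  have heta := eta_pos hn hell ht0 hK
  set M := Real.exp (K * t0) with hM
  have hMpos : 0 < M := Real.exp_pos _
  have h5 : ell * σ ^ 2 * M / (4 * eta n K ell t0) * Vol ≤ c3 n K ell * σ ^ 2 * σ ^ n / 2 := by
    calc ell * σ ^ 2 * M / (4 * eta n K ell t0) * Vol
        ≤ ell * σ ^ 2 * M / (4 * eta n K ell t0) * (c4 n K ell t0 * σ ^ n) := by gcongr
      _ = c3 n K ell * σ ^ 2 * σ ^ n / 2 := by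
        unfold eta
        rw [← hM]
        field_simp
        ring
  have h6 : c3 n K ell * σ ^ 2 * σ ^ n / 2 ≤ eta n K ell t0 * I := by linarith
  -- the weight
  have hlam : lam K t0 (σ ^ 2) = 1 / (2 * (σ * √(2 * (K * M)))) := by
    unfold lam
    rw [← hM, show 2 * (σ ^ 2 * K * M) = σ ^ 2 * (2 * (K * M)) by ring,
      Real.sqrt_mul (by positivity), Real.sqrt_sq hσ.le]
  set S := √(2 * (K * M)) with hS
  have hSpos : 0 < S := by rw [hS]; positivity
  rw [hlam] at h1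
  have h7 : I ≤ 2 * (σ * S) * (σ ^ 2 * M * J) := by
    rw [div_mul_eq_mul_div, one_mul, div_le_iff₀ (by positivity)] at h1
    linarith
  have h8 : c3 n K ell * σ ^ 2 * σ ^ n / 2 ≤ eta n K ell t0 * (2 * (σ * S) * (σ ^ 2 * M * J)) :=
    h6.trans (by gcongr)
  have h9 : c3 n K ell * σ ^ n ≤ 4 * eta n K ell t0 * S * M * (σ * J) := by
    have hσ2 : 0 < σ ^ 2 := by positivity
    have h10 : σ ^ 2 * (c3 n K ell * σ ^ n) ≤ σ ^ 2 * (4 * eta n K ell t0 * S * M * (σ * J)) := by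
      nlinarith
    exact le_of_mul_le_mul_left h10 hσ2
  unfold c5
  rw [← hM, ← hS, div_mul_eq_mul_div, div_le_iff₀ (by positivity)]
  linarith

theorem le_one_add_pow {t : ℝ} (ht : 0 ≤ t) (hn : 1 ≤ n) : t ≤ 1 + t ^ n := by
  rcases le_total t 1 with h | h
  · have := pow_nonneg ht n; linarith
  · have : t ^ 1 ≤ t ^ n := pow_le_pow_right₀ h hn
    rw [pow_one] at this; linarith

theorem power_bound (D : Dat n w ell t0 γ K (σ ^ 2)) (hσ : 0 < σ) {ρ : E (n + 1) → ℝ}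
    (hρ : IntegrableOn ρ (ZZ n ell K (ell / 2) (σ ^ 2) t0))
    (hρn : IntegrableOn (fun x => |ρ x| ^ n) (ZZ n ell K (ell / 2) (σ ^ 2) t0))
    (hb : c5 n K ell t0 * σ ^ n ≤ σ * ∫ x in ZZ n ell K (ell / 2) (σ ^ 2) t0, |ρ x|) :
    c4 n K ell t0 * (c5 n K ell t0 / (2 * c4 n K ell t0)) ^ n ≤
      ∫ x in ZZ n ell K (ell / 2) (σ ^ 2) t0, |ρ x| ^ n := by
  have hn := D.hn
  have hell := D.hell
  have ht0 := D.ht0
  have hK := D.K_pos
  have hc5 := c5_pos hn hell ht0 hK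
  have hc4 := c4_pos (n := n) (K := K) hell ht0
  set L := c5 n K ell t0 / (2 * c4 n K ell t0) / σ with hL
  have hLpos : 0 < L := by positivity
  set Z := ZZ n ell K (ell / 2) (σ ^ 2) t0 with hZ
  have hZc : IsCompact Z := isCompact_ZZ D.hell D.K_pos (by positivity)
  set J := ∫ x in Z, |ρ x|
  set P := ∫ x in Z, |ρ x| ^ n
  have h1 : J ≤ L * volume.real Z + L * ((L ^ n)⁻¹ * P) := by
    have e : L * volume.real Z + L * ((L ^ n)⁻¹ * P) =
        ∫ x in Z, (L + L * ((L ^ n)⁻¹ * |ρ x| ^ n)) := by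
      have hic : Integrable (fun _ : E (n + 1) => L) (volume.restrict Z) :=
        integrableOn_const hZc.measure_lt_top.ne
      rw [integral_add hic ((hρn.const_mul _).const_mul _),
        setIntegral_const, integral_const_mul, integral_const_mul, smul_eq_mul,
        mul_comm (volume.real Z)]
    rw [e]
    refine integral_mono hρ.abs ?_ fun x => ?_
    · have hic : Integrable (fun _ : E (n + 1) => L) (volume.restrict Z) :=
        integrableOn_const hZc.measure_lt_top.ne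
      exact hic.add ((hρn.const_mul _).const_mul _)
    · have h2 := le_one_add_pow (n := n) (t := |ρ x| / L) (by positivity) hn
      rw [div_pow] at h2
      have h3 : L * (|ρ x| / L) ≤ L * (1 + |ρ x| ^ n / L ^ n) := by gcongr
      have h4 : L * (|ρ x| / L) = |ρ x| := by field_simp
      rw [h4] at h3
      refine h3.trans (le_of_eq ?_)
      ring
  have h2 := D.vol_le hσ
  have h3 : σ * J ≤ σ * (L * (c4 n K ell t0 * σ ^ n) + L * ((L ^ n)⁻¹ * P)) := by
    refine mul_le_mul_of_nonneg_left (h1.trans ?_) hσ.le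
    gcongr
  have h4 : σ * (L * (c4 n K ell t0 * σ ^ n)) = c5 n K ell t0 * σ ^ n / 2 := by
    rw [hL]; field_simp
  have h5 : c5 n K ell t0 * σ ^ n / 2 ≤ σ * (L * ((L ^ n)⁻¹ * P)) := by
    have : σ * (L * (c4 n K ell t0 * σ ^ n) + L * ((L ^ n)⁻¹ * P)) =
      c5 n K ell t0 * σ ^ n / 2 + σ * (L * ((L ^ n)⁻¹ * P)) := by rw [mul_add, h4]
    linarith
  have h6 : σ * L = c5 n K ell t0 / (2 * c4 n K ell t0) := by rw [hL]; field_simp
  set q := c5 n K ell t0 / (2 * c4 n K ell t0) with hq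
  have hqpos : 0 < q := by positivity
  have h7 : c5 n K ell t0 = q * (2 * c4 n K ell t0) := by rw [hq]; field_simp
  have h8 : σ * (L * ((L ^ n)⁻¹ * P)) = q * ((L ^ n)⁻¹ * P) := by rw [← mul_assoc, h6]
  have hLn : L ^ n = q ^ n / σ ^ n := by
    rw [hL, div_pow]
  rw [h8, hLn, h7] at h5
  have h9 : q * ((q ^ n / σ ^ n)⁻¹ * P) = q * σ ^ n * (P / q ^ n) := by
    field_simp
  rw [h9] at h5
  have h10 : q * (2 * c4 n K ell t0) * σ ^ n / 2 = q * σ ^ n * c4 n K ell t0 := by ring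
  rw [h10] at h5
  have h11 : c4 n K ell t0 ≤ P / q ^ n := le_of_mul_le_mul_left h5 (by positivity)
  rwa [le_div_iff₀ (by positivity)] at h11

end Dat

end Pool.Agent.H229.BI
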