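import Pool.Agent.H229.BI.Final
import Pool.Agent.H229.BI.Defs

open MeasureTheory Set Filter Topology Metric
open scoped NNReal ENNReal RealInnerProductSpace

namespace Pool.Agent.H229.BI

theorem fderiv_neg_add {m : ℕ} (U V : E m → ℝ) (x : E m) :
    fderiv ℝ (fun y => -U y + V y) x = -fderiv ℝ (fun y => U y + -V y) x := by
  rw [← fderiv_fun_neg]
  congr 1
  ext y; ring

theorem LocMin.neg {m : ℕ} {O : Set (E m)} {ρ U : E m → ℝ} (h : LocMin O ρ U) :
    LocMin O (fun x => -ρ x) (fun x => -U x) := by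
  intro V C hV hVc hVO hae
  have hV' : LipschitzWith C (fun x => -V x) := hV.neg
  have hVc' : HasCompactSupport (fun x => -V x) := hVc.neg
  have hVO' : tsupport (fun x => -V x) ⊆ O := by
    refine Subset.trans (closure_mono ?_) hVO
    intro x hx
    simpa using hx
  have h1 := h (fun x => -V x) C hV' hVc' hVO' (by
    filter_upwards [hae] with x hx
    rw [fderiv_neg_add, norm_neg] at hx
    exact hx)
  have e1 : ∫ x in O, -ρ x * V x = ∫ x in O, ρ x * -V x := by
    congr 1; ext x; ring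
  have e2 : ∫ x in O, (√(1 - ‖fderiv ℝ (fun x => -U x) x‖ ^ 2) -
      √(1 - ‖fderiv ℝ (fun y => -U y + V y) x‖ ^ 2)) =
      ∫ x in O, (√(1 - ‖fderiv ℝ U x‖ ^ 2) -
      √(1 - ‖fderiv ℝ (fun y => U y + -V y) x‖ ^ 2)) := by
    congr 1; ext x
    rw [fderiv_neg_add, norm_neg, fderiv_fun_neg, norm_neg]
  rw [e1, e2]
  exact h1

variable {n : ℕ}

theorem norm_fderiv_comp (L : E (n + 1) ≃ₗᵢ[ℝ] E (n + 1)) (x0 : E (n + 1))
    (f : E (n + 1) → ℝ) (x : E (n + 1)) :
    ‖fderiv ℝ (fun y => f (x0 + L y)) x‖ = ‖fderiv ℝ f (x0 + L x)‖ := by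
  have h1 : fderiv ℝ ((fun z => f (x0 + z)) ∘ L) x =
      (fderiv ℝ (fun z => f (x0 + z)) (L x)).comp (L.toContinuousLinearEquiv : E (n + 1) →L[ℝ] E (n + 1)) :=
    L.toContinuousLinearEquiv.comp_right_fderiv
  have h2 : (fun y => f (x0 + L y)) = (fun z => f (x0 + z)) ∘ L := rfl
  rw [h2, h1, fderiv_comp_add_left]
  exact ContinuousLinearMap.opNorm_comp_linearIsometryEquiv _ L

/-- the affine isometry -/
noncomputable def affH (L : E (n + 1) ≃ₗᵢ[ℝ] E (n + 1)) (x0 : E (n + 1)) :
    E (n + 1) ≃ₜ E (n + 1) := L.toHomeomorph.trans (Homeomorph.addLeft x0)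

theorem affH_apply (L : E (n + 1) ≃ₗᵢ[ℝ] E (n + 1)) (x0 x : E (n + 1)) :
    affH L x0 x = x0 + L x := rfl

theorem affH_symm_apply (L : E (n + 1) ≃ₗᵢ[ℝ] E (n + 1)) (x0 y : E (n + 1)) :
    (affH L x0).symm y = L.symm (-x0 + y) := rfl

theorem measurePreserving_affH (L : E (n + 1) ≃ₗᵢ[ℝ] E (n + 1)) (x0 : E (n + 1)) :
    MeasurePreserving (affH L x0) volume volume :=
  (measurePreserving_add_left volume x0).comp L.measurePreserving

theorem setIntegral_affH (L : E (n + 1) ≃ₗᵢ[ℝ] E (n + 1)) (x0 : E (n + 1))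
    (g : E (n + 1) → ℝ) (Ω : Set (E (n + 1))) :
    ∫ x in (affH L x0) ⁻¹' Ω, g (x0 + L x) = ∫ y in Ω, g y :=
  (measurePreserving_affH L x0).setIntegral_preimage_emb (affH L x0).measurableEmbedding g Ω

theorem LocMin.transfer {Ω : Set (E (n + 1))} {ρ u : E (n + 1) → ℝ} (h : LocMin Ω ρ u)
    (L : E (n + 1) ≃ₗᵢ[ℝ] E (n + 1)) (x0 : E (n + 1)) (c : ℝ) :
    LocMin ((affH L x0) ⁻¹' Ω) (fun x => ρ (x0 + L x)) (fun x => u (x0 + L x) - c) := by
  intro V C hV hVc hVO hae
  set V' : E (n + 1) → ℝ := V ∘ (affH L x0).symm with hV'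
  have hVV : ∀ x, V' (x0 + L x) = V x := by
    intro x
    rw [hV', Function.comp_apply, ← affH_apply, Homeomorph.symm_apply_apply]
  have hLip : LipschitzWith C V' := by
    refine LipschitzWith.of_dist_le_mul fun x y => ?_
    refine (hV.dist_le_mul _ _).trans (le_of_eq ?_)
    rw [affH_symm_apply, affH_symm_apply, L.symm.dist_map, dist_add_left]
  have hcs : HasCompactSupport V' := hVc.comp_homeomorph _
  have hts : tsupport V' ⊆ Ω := by
    rw [hV', tsupport_comp_eq_preimage]
    intro x hx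
    have := hVO hx
    rwa [mem_preimage, Homeomorph.apply_symm_apply] at this
  have hfun : ∀ x, ‖fderiv ℝ (fun y => u (x0 + L y) - c + V y) x‖ =
      ‖fderiv ℝ (fun y => u y + V' y) (x0 + L x)‖ := by
    intro x
    rw [← norm_fderiv_comp L x0 (fun y => u y + V' y) x]
    have : (fun y => u (x0 + L y) - c + V y) = fun y => (u (x0 + L y) + V' (x0 + L y)) - c := by
      ext y; rw [hVV]; ring
    rw [this, fderiv_sub_const]
  have hfun0 : ∀ x, ‖fderiv ℝ (fun y => u (x0 + L y) - c) x‖ = ‖fderiv ℝ u (x0 + L x)‖ := by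
    intro x
    rw [fderiv_sub_const, norm_fderiv_comp]
  have hae' : ∀ᵐ x ∂(volume.restrict Ω), ‖fderiv ℝ (fun y => u y + V' y) x‖ ≤ 1 := by
    have hmp := (measurePreserving_affH L x0).restrict_preimage_emb
      (affH L x0).measurableEmbedding Ω
    rw [← hmp.map_eq, (affH L x0).measurableEmbedding.ae_map_iff]
    filter_upwards [hae] with x hx
    rw [hfun] at hx
    exact hx
  have h1 := h V' C hLip hcs hts hae'
  rw [← setIntegral_affH L x0 (fun y => ρ y * V' y),
    ← setIntegral_affH L x0 (fun y => √(1 - ‖fderiv ℝ u y‖ ^ 2) -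
      √(1 - ‖fderiv ℝ (fun y => u y + V' y) y‖ ^ 2))] at h1
  simp only [hfun, hfun0]
  simp only [hVV] at h1
  exact h1

/-- Minimizers are local minimizers. -/
theorem IsMinimizer.locMin {m : ℕ} {Ω : Set (E m)} {φ ρ u : E m → ℝ} (hΩo : IsOpen Ω)
    (hΩb : Bornology.IsBounded Ω) (hρ : IntegrableOn ρ Ω) (hu : IsMinimizer Ω φ ρ u) :
    LocMin Ω ρ u := by
  intro V C hV hVc hVO hae
  obtain ⟨⟨hc, hφ, hl, hg⟩, hmin⟩ := hu
  have hadm : IsAdmissible Ω φ (fun y => u y + V y) := by
    refine ⟨hc.add hV.continuous.continuousOn, fun x hx => ?_, ?_, hae⟩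
    · have : V x = 0 := by
        apply image_eq_zero_of_notMem_tsupport
        intro h
        rw [hΩo.frontier_eq] at hx
        exact hx.2 (hVO h)
      change u x + V x = φ x
      rw [hφ x hx, this, add_zero]
    · exact hl.add (hV.locallyLipschitz.locallyLipschitzOn)
  have h1 := hmin _ hadm
  unfold energy at h1
  have hfin : volume Ω < ⊤ := hΩb.measure_lt_top
  have hcl : IsCompact (closure Ω) := hΩb.isCompact_closure
  obtain ⟨B, hB⟩ := hcl.exists_bound_of_continuousOn hc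
  obtain ⟨B', hB'⟩ := hcl.exists_bound_of_continuousOn (hV.continuous.continuousOn (s := closure Ω))
  have hi1 : IntegrableOn (fun x => ρ x * u x) Ω := by
    have := hρ.bdd_mul (c := B) (f := u)
      ((hc.mono subset_closure).aestronglyMeasurable hΩo.measurableSet)
      ((ae_restrict_iff' hΩo.measurableSet).mpr (Eventually.of_forall fun x hx =>
        hB x (subset_closure hx)))
    refine this.congr (Eventually.of_forall fun x => mul_comm _ _)
  have hi2 : IntegrableOn (fun x => ρ x * V x) Ω := by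
    have := hρ.bdd_mul (c := B') (f := V)
      (hV.continuous.aestronglyMeasurable)
      ((ae_restrict_iff' hΩo.measurableSet).mpr (Eventually.of_forall fun x hx =>
        hB' x (subset_closure hx)))
    refine this.congr (Eventually.of_forall fun x => mul_comm _ _)
  have hi3 : ∀ f : E m → ℝ, IntegrableOn (fun x => √(1 - ‖fderiv ℝ f x‖ ^ 2)) Ω := by
    intro f
    refine Measure.integrableOn_of_bounded (M := 1) hfin.ne ?_ ?_
    · exact ((measurable_const.sub ((measurable_fderiv ℝ f).norm.pow_const 2)).sqrt).aestronglyMeasurable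
    · refine Eventually.of_forall fun x => ?_
      rw [Real.norm_eq_abs, abs_of_nonneg (Real.sqrt_nonneg _)]
      exact sqrt_one_sub_sq_le_one _
  have hi4 : IntegrableOn (fun _ : E m => (1 : ℝ)) Ω := integrableOn_const hfin.ne
  have e1 : ∫ x in Ω, ρ x * (u x + V x) = (∫ x in Ω, ρ x * u x) + ∫ x in Ω, ρ x * V x := by
    rw [← integral_add hi1 hi2]; congr 1; ext x; ring
  rw [e1, integral_sub hi4 (hi3 _), integral_sub hi4 (hi3 _)] at h1
  rw [integral_sub (hi3 _) (hi3 _)]
  linarith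

end Pool.Agent.H229.BI
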