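import Pool.Agent.H229.BI.Div

open MeasureTheory Set Filter Topology Metric
open scoped NNReal ENNReal RealInnerProductSpace

namespace Pool.Agent.H229.BI

variable {n : ℕ}

theorem continuous_qq : Continuous (qq : E (n + 1) → ℝ) := (contDiff_qq (k := 0)).continuous

theorem continuous_coord (i : Fin (n + 1)) : Continuous fun x : E (n + 1) => x i :=
  (contDiff_coord i (k := 0)).continuous

theorem norm_sub_single_sq (x : E (n + 1)) (s : ℝ) :
    ‖x - EuclideanSpace.single 0 s‖ ^ 2 = (x 0 - s) ^ 2 + qq x := by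
  rw [norm_sq]
  congr 1
  unfold qq
  refine Finset.sum_congr rfl fun i _ => ?_
  simp

theorem lower_w {w : E (n + 1) → ℝ} (hw : LipschitzWith 1 w) {ell : ℝ} (hell : 0 < ell)
    (wl : w (EuclideanSpace.single 0 ell) = ell) {x : E (n + 1)} (hx : x 0 ≤ ell / 2) :
    x 0 - qq x / ell ≤ w x := by
  have h1 : |w x - w (EuclideanSpace.single 0 ell)| ≤ ‖x - EuclideanSpace.single 0 ell‖ := by
    have := hw.dist_le_mul x (EuclideanSpace.single 0 ell)
    simpa [Real.dist_eq, dist_eq_norm] using this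
  have h2 : ‖x - EuclideanSpace.single 0 ell‖ ≤ (ell - x 0) + qq x / ell := by
    have hq := qq_nonneg x
    refine le_of_sq_le_sq ?_ (by have := div_nonneg hq hell.le; linarith)
    rw [norm_sub_single_sq]
    have h3 : qq x ≤ 2 * (ell - x 0) * (qq x / ell) := by
      have : 2 * (ell - x 0) * (qq x / ell) = qq x * (2 * (ell - x 0) / ell) := by ring
      rw [this]
      have h4 : 1 ≤ 2 * (ell - x 0) / ell := by
        rw [le_div_iff₀ hell]; linarith
      nlinarith
    nlinarith [sq_nonneg (qq x / ell)]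
  rw [wl] at h1
  have := (abs_le.mp h1).1
  linarith

/-- profile -/
noncomputable def tau (K h ε s : ℝ) : ℝ := ε * (Real.exp (-K * s) - Real.exp (-K * h))

/-- the tube -/
def ZZ (n : ℕ) (ell K h ε t0 : ℝ) : Set (E (n + 1)) :=
  {x | -t0 ≤ x 0 ∧ x 0 ≤ h ∧ qq x ≤ ell * tau K h ε (x 0)}

/-- the cut-off difference -/
noncomputable def WW (w : E (n + 1) → ℝ) (ell a K h ε t0 : ℝ) : E (n + 1) → ℝ :=
  (ZZ n ell K h ε t0).indicator fun x => max (cc a K h ε x - w x) 0

theorem continuous_tau (K h ε : ℝ) : Continuous (tau K h ε) := by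
  unfold tau; fun_prop

theorem isClosed_ZZ (ell K h ε t0 : ℝ) : IsClosed (ZZ n ell K h ε t0) := by
  unfold ZZ
  refine (isClosed_le continuous_const (continuous_coord 0)).inter
    ((isClosed_le (continuous_coord 0) continuous_const).inter
    (isClosed_le continuous_qq ?_))
  exact continuous_const.mul ((continuous_tau K h ε).comp (continuous_coord 0))

theorem tau_le {K h ε s t0 : ℝ} (hK : 0 < K) (hε : 0 ≤ ε) (hs : -t0 ≤ s) :
    tau K h ε s ≤ ε * Real.exp (K * t0) := by
  unfold tau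
  have h1 : Real.exp (-K * s) ≤ Real.exp (K * t0) := by
    apply Real.exp_le_exp.mpr; nlinarith
  have h2 := Real.exp_pos (-K * h)
  nlinarith

theorem tau_nonneg {K h ε s : ℝ} (hK : 0 < K) (hε : 0 ≤ ε) (hs : s ≤ h) :
    0 ≤ tau K h ε s := by
  unfold tau
  have h1 : Real.exp (-K * h) ≤ Real.exp (-K * s) := by
    apply Real.exp_le_exp.mpr; nlinarith
  exact mul_nonneg hε (by linarith)

theorem cc_eq (a K h ε : ℝ) (x : E (n + 1)) :
    cc a K h ε x = x 0 + tau K h ε (x 0) - a * qq x := rfl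

theorem qq_le_of_mem {ell K h ε t0 : ℝ} (hell : 0 < ell) (hK : 0 < K) (hε : 0 ≤ ε)
    {x : E (n + 1)} (hx : x ∈ ZZ n ell K h ε t0) : qq x ≤ ell * ε * Real.exp (K * t0) := by
  obtain ⟨h1, h2, h3⟩ := hx
  have := tau_le (h := h) hK hε h1
  nlinarith

theorem isCompact_ZZ {ell K h ε t0 : ℝ} (hell : 0 < ell) (hK : 0 < K) (hε : 0 ≤ ε) :
    IsCompact (ZZ n ell K h ε t0) := by
  refine Metric.isCompact_of_isClosed_isBounded (isClosed_ZZ ell K h ε t0) ?_
  refine (Metric.isBounded_closedBall (x := (0 : E (n + 1)))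
    (r := √((|t0| + |h|) ^ 2 + ell * ε * Real.exp (K * t0)))).subset fun x hx => ?_
  rw [mem_closedBall_zero_iff]
  refine Real.le_sqrt_of_sq_le ?_
  rw [norm_sq]
  have h1 := qq_le_of_mem hell hK hε hx
  have h2 : (x 0) ^ 2 ≤ (|t0| + |h|) ^ 2 := by
    apply sq_le_sq'
    · have := neg_abs_le t0; have := le_abs_self t0; have := hx.1; have := abs_nonneg h; linarith
    · have := hx.2.1; have := le_abs_self h; have := abs_nonneg t0; linarith
  linarith

/-- Standing assumptions. -/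
structure Dat (n : ℕ) (w : E (n + 1) → ℝ) (ell t0 γ K ε : ℝ) : Prop where
  hn : 1 ≤ n
  hw : LipschitzWith 1 w
  hell : 0 < ell
  ht0 : 0 < t0
  hγ : 0 < γ
  w0 : w 0 = 0
  wl : w (EuclideanSpace.single 0 ell) = ell
  wt : -t0 + γ ≤ w (EuclideanSpace.single 0 (-t0))
  hK : K * ell = 16 * (n + 1)
  hε : 0 < ε
  e1 : ε * K * Real.exp (K * t0) ≤ 1 / 2
  e2 : ε * Real.exp (K * t0) + √(ell * ε * Real.exp (K * t0)) < γ

namespace Dat

variable {w : E (n + 1) → ℝ} {ell t0 γ K ε : ℝ}

theorem K_pos (D : Dat n w ell t0 γ K ε) : 0 < K := by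
  have h1 := D.hK
  have h2 := D.hell
  have h3 : 0 < K * ell := by rw [h1]; positivity
  exact (pos_iff_pos_of_mul_pos h3).mpr h2

theorem cc_sub_le (D : Dat n w ell t0 γ K ε) {x : E (n + 1)} (hx : x 0 ≤ ell / 2) :
    cc (2 / ell) K (ell / 2) ε x - w x ≤ tau K (ell / 2) ε (x 0) - qq x / ell := by
  have h1 := lower_w D.hw D.hell D.wl hx
  rw [cc_eq]
  have : 2 / ell * qq x = 2 * (qq x / ell) := by ring
  rw [this]
  linarith

theorem cc_sub_le' (D : Dat n w ell t0 γ K ε) {x : E (n + 1)}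
    (hx : x ∈ ZZ n ell K (ell / 2) ε t0) :
    cc (2 / ell) K (ell / 2) ε x - w x ≤ ε * Real.exp (K * t0) := by
  have h1 := D.cc_sub_le hx.2.1
  have h2 := tau_le (h := ell / 2) D.K_pos D.hε.le hx.1
  have h3 : 0 ≤ qq x / ell := div_nonneg (qq_nonneg x) D.hell.le
  linarith

theorem left_face (D : Dat n w ell t0 γ K ε) {x : E (n + 1)}
    (hx : x ∈ ZZ n ell K (ell / 2) ε t0) (hx0 : x 0 = -t0) :
    cc (2 / ell) K (ell / 2) ε x - w x ≤ 0 := by
  have h1 : |w x - w (EuclideanSpace.single 0 (-t0))| ≤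
      ‖x - EuclideanSpace.single 0 (-t0)‖ := by
    have := D.hw.dist_le_mul x (EuclideanSpace.single 0 (-t0))
    simpa [Real.dist_eq, dist_eq_norm] using this
  have h2 : ‖x - EuclideanSpace.single 0 (-t0)‖ ≤ √(ell * ε * Real.exp (K * t0)) := by
    refine Real.le_sqrt_of_sq_le ?_
    rw [norm_sub_single_sq, hx0]
    have := qq_le_of_mem D.hell D.K_pos D.hε.le hx
    simpa using this
  have h3 := tau_le (h := ell / 2) D.K_pos D.hε.le hx.1
  have h4 := D.e2
  have h5 := D.wt
  have h6 : 0 ≤ 2 / ell * qq x := mul_nonneg (by have := D.hell; positivity) (qq_nonneg x)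
  rw [cc_eq, hx0] at *
  have := (abs_le.mp h1).1
  linarith

theorem zero_on_frontier (D : Dat n w ell t0 γ K ε) {x : E (n + 1)}
    (hx : x ∈ frontier (ZZ n ell K (ell / 2) ε t0)) :
    max (cc (2 / ell) K (ell / 2) ε x - w x) 0 = 0 := by
  apply max_eq_right
  have hZ : x ∈ ZZ n ell K (ell / 2) ε t0 := (isClosed_ZZ _ _ _ _ _).frontier_subset hx
  by_contra hcon
  push Not at hcon
  have hint : x ∈ interior (ZZ n ell K (ell / 2) ε t0) := by
    rw [mem_interior]
    refine ⟨{x | -t0 < x 0 ∧ x 0 < ell / 2 ∧ qq x < ell * tau K (ell / 2) ε (x 0)}, ?_, ?_, ?_⟩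
    · rintro y ⟨h1, h2, h3⟩
      exact ⟨h1.le, h2.le, h3.le⟩
    · refine (isOpen_lt continuous_const (continuous_coord 0)).inter
        ((isOpen_lt (continuous_coord 0) continuous_const).inter
        (isOpen_lt continuous_qq ?_))
      exact continuous_const.mul ((continuous_tau _ _ _).comp (continuous_coord 0))
    · have h1 := D.cc_sub_le hZ.2.1
      have hq : qq x < ell * tau K (ell / 2) ε (x 0) := by
        have : qq x / ell < tau K (ell / 2) ε (x 0) := by linarith
        rw [div_lt_iff₀ D.hell] at this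
        linarith
      refine ⟨?_, ?_, hq⟩
      · rcases hZ.1.lt_or_eq with h | h
        · exact h
        · exact absurd (D.left_face hZ h.symm) (by linarith)
      · rcases hZ.2.1.lt_or_eq with h | h
        · exact h
        · exfalso
          have : tau K (ell / 2) ε (x 0) = 0 := by rw [h]; unfold tau; ring
          rw [this] at hq
          have := qq_nonneg x
          linarith
  exact hx.2 hint

theorem exists_lipschitz (D : Dat n w ell t0 γ K ε) :
    ∃ C : ℝ≥0, LipschitzWith C (WW w ell (2 / ell) K (ell / 2) ε t0) := by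
  have hloc : LocallyLipschitz fun x => max (cc (2 / ell) K (ell / 2) ε x - w x) 0 := by
    refine LocallyLipschitz.max_const ?_ 0
    exact ((contDiff_cc _ _ _ _ (k := 1)).locallyLipschitz).sub D.hw.locallyLipschitz
  obtain ⟨C, hC⟩ := LocallyLipschitzOn.exists_lipschitzOnWith_of_compact
    (isCompact_ZZ D.hell D.K_pos D.hε.le (h := ell / 2) (t0 := t0)) (hloc.locallyLipschitzOn (s := ZZ n ell K (ell / 2) ε t0))
  exact ⟨C, lipschitzWith_indicator (isClosed_ZZ _ _ _ _ _) hC fun x hx => D.zero_on_frontier hx⟩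

theorem WW_nonneg (x : E (n + 1)) (a h : ℝ) : 0 ≤ WW w ell a K h ε t0 x := by
  unfold WW
  exact indicator_nonneg (fun _ _ => le_max_right _ _) x

theorem WW_le (D : Dat n w ell t0 γ K ε) (x : E (n + 1)) :
    WW w ell (2 / ell) K (ell / 2) ε t0 x ≤ ε * Real.exp (K * t0) := by
  have h0 : 0 ≤ ε * Real.exp (K * t0) := by have := D.hε; positivity
  unfold WW
  refine indicator_le' (fun x hx => ?_) (fun _ _ => h0) x
  exact max_le (D.cc_sub_le' hx) h0

theorem tsupport_subset (ell a K h ε t0 : ℝ) :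
    tsupport (WW w ell a K h ε t0) ⊆ ZZ n ell K h ε t0 := by
  refine closure_minimal ?_ (isClosed_ZZ _ _ _ _ _)
  intro x hx
  by_contra hcon
  exact hx (indicator_of_notMem hcon _)

theorem hasCompactSupport (D : Dat n w ell t0 γ K ε) :
    HasCompactSupport (WW w ell (2 / ell) K (ell / 2) ε t0) :=
  (isCompact_ZZ D.hell D.K_pos D.hε.le).of_isClosed_subset (isClosed_tsupport _)
    (tsupport_subset _ _ _ _ _ _)

/-- where `W` is positive it is locally `c - w` -/
theorem eventuallyEq_of_pos (D : Dat n w ell t0 γ K ε) {x : E (n + 1)}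
    (hx : 0 < WW w ell (2 / ell) K (ell / 2) ε t0 x) :
    WW w ell (2 / ell) K (ell / 2) ε t0 =ᶠ[𝓝 x] fun y => cc (2 / ell) K (ell / 2) ε y - w y := by
  obtain ⟨C, hC⟩ := D.exists_lipschitz
  have hev : ∀ᶠ y in 𝓝 x, 0 < WW w ell (2 / ell) K (ell / 2) ε t0 y :=
    hC.continuous.continuousAt.eventually (lt_mem_nhds hx)
  filter_upwards [hev] with y hy
  have hyZ : y ∈ ZZ n ell K (ell / 2) ε t0 := by
    by_contra hcon
    have : WW w ell (2 / ell) K (ell / 2) ε t0 y = 0 := indicator_of_notMem hcon _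
    linarith
  unfold WW at hy ⊢
  rw [indicator_of_mem hyZ] at hy ⊢
  apply max_eq_left
  by_contra hcon
  push Not at hcon
  rw [max_eq_right hcon.le] at hy
  exact lt_irrefl _ hy

theorem kap_eq (x : E (n + 1)) : kap K ε x = K * (ε * Real.exp (-K * x 0)) := by
  unfold kap; ring

theorem kap_pos (D : Dat n w ell t0 γ K ε) (x : E (n + 1)) : 0 < kap K ε x := by
  have := D.hε; have := D.K_pos
  unfold kap; positivity

theorem kap_le (D : Dat n w ell t0 γ K ε) {x : E (n + 1)} (hx : -t0 ≤ x 0) :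
    kap K ε x ≤ ε * K * Real.exp (K * t0) := by
  have h1 := D.hε; have h2 := D.K_pos
  unfold kap
  refine mul_le_mul_of_nonneg_left (Real.exp_le_exp.mpr ?_) (by positivity)
  nlinarith

theorem qq_kap (D : Dat n w ell t0 γ K ε) {x : E (n + 1)}
    (hx : x ∈ ZZ n ell K (ell / 2) ε t0) :
    4 * (2 / ell) ^ 2 * qq x ≤ kap K ε x / (n + 1) := by
  have h1 : qq x ≤ ell * (ε * Real.exp (-K * x 0)) := by
    refine hx.2.2.trans ?_
    unfold tau
    have h2 := D.hε
    have h3 := D.hell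
    have h4 := Real.exp_pos (-K * (ell / 2))
    refine mul_le_mul_of_nonneg_left ?_ h3.le
    refine mul_le_mul_of_nonneg_left ?_ h2.le
    linarith
  have hell := D.hell
  have hn1 : (0 : ℝ) < n + 1 := by positivity
  have hK : K = 16 * (n + 1) / ell := by rw [← D.hK]; field_simp
  rw [kap_eq]
  calc 4 * (2 / ell) ^ 2 * qq x ≤ 4 * (2 / ell) ^ 2 * (ell * (ε * Real.exp (-K * x 0))) := by
        gcongr
    _ = K * (ε * Real.exp (-K * x 0)) / (n + 1) := by
        rw [show K * (ε * Real.exp (-K * x 0)) / (n + 1) =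
          (K / (n + 1)) * (ε * Real.exp (-K * x 0)) by ring,
          show K / (n + 1) = 16 / ell by rw [hK]; field_simp]
        field_simp
        ring

theorem qq_kap' (D : Dat n w ell t0 γ K ε) {x : E (n + 1)}
    (hx : x ∈ ZZ n ell K (ell / 2) ε t0) :
    4 * (2 / ell) ^ 2 * qq x ≤ kap K ε x / 2 := by
  refine (D.qq_kap hx).trans ?_
  have h1 := D.kap_pos x
  have h2 : (1 : ℝ) ≤ n := by exact_mod_cast D.hn
  gcongr
  linarith

theorem kap_le_half (D : Dat n w ell t0 γ K ε) {x : E (n + 1)}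
    (hx : x ∈ ZZ n ell K (ell / 2) ε t0) : kap K ε x ≤ 1 / 2 :=
  (D.kap_le hx.1).trans D.e1

theorem BB_ge (D : Dat n w ell t0 γ K ε) {x : E (n + 1)}
    (hx : x ∈ ZZ n ell K (ell / 2) ε t0) : kap K ε x ≤ BB (2 / ell) K ε x := by
  have h1 := D.qq_kap' hx
  have h2 := D.kap_le_half hx
  have h3 := D.kap_pos x
  unfold BB
  nlinarith

theorem BB_pos (D : Dat n w ell t0 γ K ε) {x : E (n + 1)}
    (hx : x ∈ ZZ n ell K (ell / 2) ε t0) : 0 < BB (2 / ell) K ε x :=
  (D.kap_pos x).trans_le (D.BB_ge hx)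

theorem BB_le (D : Dat n w ell t0 γ K ε) (x : E (n + 1)) : BB (2 / ell) K ε x ≤ 2 * kap K ε x := by
  unfold BB
  have := qq_nonneg x
  nlinarith [sq_nonneg (kap K ε x), mul_nonneg (sq_nonneg (2 / ell)) this]

theorem div_nonneg (D : Dat n w ell t0 γ K ε) {x : E (n + 1)}
    (hx : x ∈ ZZ n ell K (ell / 2) ε t0) :
    0 ≤ ∑ i, fderiv ℝ (gg (2 / ell) K ε i) x (EuclideanSpace.single i 1) := by
  rw [div_gg _ _ _ (D.BB_pos hx)]
  have hr : 0 ≤ rr (2 / ell) K ε x := by unfold rr; positivity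
  refine mul_nonneg (pow_nonneg hr 3) ?_
  have hell := D.hell
  have hK : K = 8 * (n + 1) * (2 / ell) := by
    have : K = 16 * (n + 1) / ell := by rw [← D.hK]; field_simp
    rw [this]; ring
  set a := 2 / ell with ha
  have ha0 : 0 < a := by positivity
  have h1 := D.qq_kap' hx
  have h2 := D.kap_le_half hx
  have h3 := D.kap_pos x
  have h4 := D.BB_le x
  have h5 := D.BB_pos hx
  set κ := kap K ε x
  set B := BB a K ε x
  set Q := 4 * a ^ 2 * qq x
  have hQ : 0 ≤ Q := by have := qq_nonneg x; positivity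
  have h6 : 8 * a ^ 3 * qq x = 2 * a * Q := by simp only [Q]; ring
  rw [h6]
  have h7 : (1 : ℝ) ≤ n := by exact_mod_cast D.hn
  have h8 : K * κ * (1 - Q) ≥ K * κ * (1 / 2) := by
    have hKpos := D.K_pos
    have : (1 / 2 : ℝ) ≤ 1 - Q := by linarith
    gcongr
  have h9 : 2 * a * n * B ≤ 2 * a * n * (2 * κ) := by gcongr
  have h10 : 2 * a * Q ≤ 2 * a * (κ / 2) := by gcongr
  have h11 : K * κ * (1 / 2) = 4 * (n + 1) * a * κ := by rw [hK]; ring
  nlinarith [mul_pos ha0 h3]

end Dat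

end Pool.Agent.H229.BI
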