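import Pool.Agent.H229.BI.Core

open MeasureTheory Set Filter Topology Metric
open scoped NNReal ENNReal RealInnerProductSpace

namespace Pool.Agent.H229.BI

variable {n : ℕ}

/-- a box -/
def Box (n : ℕ) (s0 s1 R : ℝ) : Set (E (n + 1)) :=
  {x | s0 ≤ x 0 ∧ x 0 ≤ s1 ∧ ∀ i : Fin n, |x i.succ| ≤ R}

theorem volume_Box (s0 s1 R : ℝ) :
    volume (Box n s0 s1 R) = ENNReal.ofReal (s1 - s0) * ENNReal.ofReal (2 * R) ^ n := by
  have hmp := EuclideanSpace.volume_preserving_symm_measurableEquiv_toLp (Fin (n + 1))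
  set a : Fin (n + 1) → ℝ := Fin.cons s0 fun _ => -R with ha
  set b : Fin (n + 1) → ℝ := Fin.cons s1 fun _ => R with hb
  have hbox : Box n s0 s1 R = (MeasurableEquiv.toLp 2 (Fin (n + 1) → ℝ)).symm ⁻¹' Icc a b := by
    ext x
    simp only [Box, mem_ofPred_eq, mem_preimage, mem_Icc, Pi.le_def]
    constructor
    · rintro ⟨h0, h1, h2⟩
      refine ⟨fun i => ?_, fun i => ?_⟩
      · refine Fin.cases ?_ (fun j => ?_) i
        · simpa [ha] using h0
        · simpa [ha] using (abs_le.mp (h2 j)).1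
      · refine Fin.cases ?_ (fun j => ?_) i
        · simpa [hb] using h1
        · simpa [hb] using (abs_le.mp (h2 j)).2
    · rintro ⟨h1, h2⟩
      refine ⟨by simpa [ha] using h1 0, by simpa [hb] using h2 0, fun j => abs_le.mpr ⟨?_, ?_⟩⟩
      · simpa [ha] using h1 j.succ
      · simpa [hb] using h2 j.succ
  rw [hbox, hmp.measure_preimage_equiv, Real.volume_Icc_pi, Fin.prod_univ_succ]
  simp [ha, hb, two_mul]

theorem measurableSet_Box (s0 s1 R : ℝ) : MeasurableSet (Box n s0 s1 R) := by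
  refine IsClosed.measurableSet ?_
  unfold Box
  refine (isClosed_le continuous_const (continuous_coord 0)).inter
    ((isClosed_le (continuous_coord 0) continuous_const).inter ?_)
  have : {x : E (n + 1) | ∀ i : Fin n, |x i.succ| ≤ R} = ⋂ i : Fin n, {x | |x i.succ| ≤ R} := by
    ext x; simp
  change IsClosed {x : E (n + 1) | ∀ i : Fin n, |x i.succ| ≤ R}
  rw [this]
  exact isClosed_iInter fun i => isClosed_le (continuous_coord _).abs continuous_const

theorem volume_real_Box {s0 s1 R : ℝ} (h : s0 ≤ s1) (hR : 0 ≤ R) :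
    volume.real (Box n s0 s1 R) = (s1 - s0) * (2 * R) ^ n := by
  rw [Measure.real, volume_Box, ENNReal.toReal_mul, ENNReal.toReal_ofReal (by linarith),
    ENNReal.toReal_pow, ENNReal.toReal_ofReal (by linarith)]

namespace Dat

variable {w : E (n + 1) → ℝ} {ell t0 γ K ε : ℝ}

theorem volume_ZZ_le (D : Dat n w ell t0 γ K ε) :
    volume.real (ZZ n ell K (ell / 2) ε t0) ≤
      (ell / 2 + t0) * (2 * √(ell * ε * Real.exp (K * t0))) ^ n := by
  have hell := D.hell
  have ht0 := D.ht0
  have h1 := volume_real_Box (n := n) (s0 := -t0) (s1 := ell / 2)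
    (R := √(ell * ε * Real.exp (K * t0))) (by linarith) (Real.sqrt_nonneg _)
  have h2 : ell / 2 - -t0 = ell / 2 + t0 := by ring
  rw [← h2, ← h1]
  refine measureReal_mono ?_ ?_
  · intro x hx
    refine ⟨hx.1, hx.2.1, fun i => ?_⟩
    refine Real.abs_le_sqrt ?_
    refine le_trans ?_ (qq_le_of_mem D.hell D.K_pos D.hε.le hx)
    unfold qq
    exact Finset.single_le_sum (f := fun i : Fin n => x i.succ ^ 2)
      (fun i _ => sq_nonneg _) (Finset.mem_univ i)
  · rw [volume_Box]
    exact ENNReal.mul_ne_top ENNReal.ofReal_ne_top (ENNReal.pow_ne_top ENNReal.ofReal_ne_top)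

/-- `T1` -/
noncomputable def T1 (K ell : ℝ) : ℝ := Real.exp (-K * (ell / 4)) - Real.exp (-K * (ell / 2))

theorem T1_pos (D : Dat n w ell t0 γ K ε) : 0 < T1 K ell := by
  unfold T1
  have := D.K_pos; have := D.hell
  have : Real.exp (-K * (ell / 2)) < Real.exp (-K * (ell / 4)) := by
    apply Real.exp_lt_exp.mpr; nlinarith
  linarith

theorem WW_ge (D : Dat n w ell t0 γ K ε) {x : E (n + 1)} (h1 : ell / 8 ≤ x 0) (h2 : x 0 ≤ ell / 4)
    (h3 : qq x ≤ ell * ε * T1 K ell / 12) :
    ε * T1 K ell / 2 ≤ WW w ell (2 / ell) K (ell / 2) ε t0 x := by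
  have hell := D.hell
  have hT := D.T1_pos
  have hε := D.hε
  have hK := D.K_pos
  have hq0 := qq_nonneg x
  have htau : ε * T1 K ell ≤ tau K (ell / 2) ε (x 0) := by
    unfold T1 tau
    have : Real.exp (-K * (ell / 4)) ≤ Real.exp (-K * x 0) := by
      apply Real.exp_le_exp.mpr; nlinarith
    refine mul_le_mul_of_nonneg_left ?_ hε.le
    linarith
  have hxZ : x ∈ ZZ n ell K (ell / 2) ε t0 := by
    refine ⟨by have := D.ht0; linarith, by linarith, ?_⟩
    have h4 : ell * (ε * T1 K ell) ≤ ell * tau K (ell / 2) ε (x 0) := by gcongr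
    have h5 : 0 < ell * (ε * T1 K ell) := by positivity
    have h6 : ell * ε * T1 K ell / 12 = ell * (ε * T1 K ell) / 12 := by ring
    linarith
  unfold WW
  rw [indicator_of_mem hxZ]
  refine le_max_of_le_left ?_
  -- upper bound for w
  have hw1 : w x ≤ ‖x‖ := by
    have := D.hw.dist_le_mul x 0
    rw [Real.dist_eq, D.w0, sub_zero, dist_zero_right] at this
    have h7 := le_abs_self (w x)
    simpa using h7.trans this
  have hnorm : ‖x‖ ≤ x 0 + 4 * qq x / ell := by
    refine le_of_sq_le_sq ?_ (by have : 0 ≤ 4 * qq x / ell := by positivity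
                                 linarith)
    rw [norm_sq]
    have h8 : qq x ≤ 2 * x 0 * (4 * qq x / ell) := by
      have : 2 * x 0 * (4 * qq x / ell) = qq x * (8 * x 0 / ell) := by ring
      rw [this]
      have h9 : 1 ≤ 8 * x 0 / ell := by rw [le_div_iff₀ hell]; linarith
      nlinarith
    nlinarith [sq_nonneg (4 * qq x / ell)]
  rw [cc_eq]
  have h10 : 4 * qq x / ell + 2 / ell * qq x ≤ ε * T1 K ell / 2 := by
    have : 4 * qq x / ell + 2 / ell * qq x = 6 * qq x / ell := by ring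
    rw [this, div_le_iff₀ hell]
    linarith
  linarith

theorem integral_WW_ge (D : Dat n w ell t0 γ K ε) {R : ℝ} (hR : 0 ≤ R)
    (hR2 : n * R ^ 2 ≤ ell * ε * T1 K ell / 12) :
    (ε * T1 K ell / 2) * ((ell / 8) * (2 * R) ^ n) ≤
      ∫ x, WW w ell (2 / ell) K (ell / 2) ε t0 x := by
  obtain ⟨C, hC⟩ := D.exists_lipschitz
  have hell := D.hell
  have hint : Integrable (WW w ell (2 / ell) K (ell / 2) ε t0) :=
    hC.continuous.integrable_of_hasCompactSupport D.hasCompactSupport
  have hvol := volume_real_Box (n := n) (s0 := ell / 8) (s1 := ell / 4) (R := R) (by linarith) hR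
  have h2 : ell / 4 - ell / 8 = ell / 8 := by ring
  rw [h2] at hvol
  have hfin : volume (Box n (ell / 8) (ell / 4) R) ≠ ⊤ := by
    rw [volume_Box]
    exact ENNReal.mul_ne_top ENNReal.ofReal_ne_top (ENNReal.pow_ne_top ENNReal.ofReal_ne_top)
  calc (ε * T1 K ell / 2) * ((ell / 8) * (2 * R) ^ n)
      = ∫ _ in Box n (ell / 8) (ell / 4) R, (ε * T1 K ell / 2) := by
        rw [setIntegral_const, hvol, smul_eq_mul, mul_comm]
    _ ≤ ∫ x in Box n (ell / 8) (ell / 4) R, WW w ell (2 / ell) K (ell / 2) ε t0 x := by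
        refine setIntegral_mono_on (integrableOn_const hfin) hint.integrableOn
          (measurableSet_Box _ _ _) fun x hx => ?_
        refine D.WW_ge hx.1 hx.2.1 (le_trans ?_ hR2)
        unfold qq
        calc ∑ i : Fin n, (x i.succ) ^ 2 ≤ ∑ _i : Fin n, R ^ 2 := by
              refine Finset.sum_le_sum fun i _ => ?_
              exact sq_le_sq' (abs_le.mp (hx.2.2 i)).1 (abs_le.mp (hx.2.2 i)).2
          _ = n * R ^ 2 := by simp
    _ ≤ ∫ x, WW w ell (2 / ell) K (ell / 2) ε t0 x :=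
        setIntegral_le_integral hint (Eventually.of_forall fun x => WW_nonneg x _ _)

/-- Poincaré type inequality in the thin tube. -/
theorem integral_WW_le (D : Dat n w ell t0 γ K ε) {η : ℝ} (hη : 0 < η) :
    ∫ x, WW w ell (2 / ell) K (ell / 2) ε t0 x ≤
      η * (∫ x, ‖fderiv ℝ (WW w ell (2 / ell) K (ell / 2) ε t0) x‖ ^ 2) +
      ell * ε * Real.exp (K * t0) / (4 * η) * volume.real (ZZ n ell K (ell / 2) ε t0) := by
  obtain ⟨C, hC⟩ := D.exists_lipschitz
  have hell := D.hell
  have hε := D.hε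
  set W := WW w ell (2 / ell) K (ell / 2) ε t0 with hWdef
  set M := Real.exp (K * t0) with hM
  have hMpos : 0 < M := Real.exp_pos _
  have hZc : IsCompact (ZZ n ell K (ell / 2) ε t0) := isCompact_ZZ D.hell D.K_pos D.hε.le
  let i0 : Fin (n + 1) := (⟨0, D.hn⟩ : Fin n).succ
  have h1 := ibp (μ := volume) (g := fun x : E (n + 1) => x i0) hC D.hasCompactSupport isOpen_univ
    (subset_univ _) (contDiff_coord i0).contDiffOn (EuclideanSpace.single i0 (1 : ℝ))
  have hfd : ∀ x : E (n + 1), fderiv ℝ (fun x : E (n + 1) => x i0) x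
      (EuclideanSpace.single i0 (1 : ℝ)) = 1 := by
    intro x
    rw [(hasFDerivAt_coord i0 x).fderiv, proj_apply']
    simp
  simp only [hfd, mul_one] at h1
  have h2 : ∫ x, W x = ∫ x, -(lineDeriv ℝ W x (EuclideanSpace.single i0 1) * x i0) := by
    rw [integral_neg, h1, neg_neg]
  rw [h2]
  have hoff : ∀ x, x ∉ ZZ n ell K (ell / 2) ε t0 → fderiv ℝ W x = 0 ∧ ∀ v, lineDeriv ℝ W x v = 0 := by
    intro x hx
    have h := eventually_zero_of_notMem (w := w) (a := 2 / ell) hx
    have hd : DifferentiableAt ℝ W x := (differentiableAt_const 0).congr_of_eventuallyEq h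
    have h2 : fderiv ℝ W x = 0 := by rw [h.fderiv_eq]; simp
    exact ⟨h2, fun v => by rw [hd.lineDeriv_eq_fderiv, h2]; simp⟩
  have hint2 : Integrable (fun x => ‖fderiv ℝ W x‖ ^ 2) := by
    refine integrable_of_bdd_supp (C := (C : ℝ) ^ 2) hZc ?_ ?_ ?_
    · exact ((measurable_fderiv ℝ W).norm.pow_const 2).aestronglyMeasurable
    · intro x _
      rw [abs_of_nonneg (by positivity)]
      have := norm_fderiv_le_of_lipschitz ℝ hC (x₀ := x)
      gcongr
    · intro x hx
      rw [(hoff x hx).1]; simp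
  have hint1 : Integrable (fun x => -(lineDeriv ℝ W x (EuclideanSpace.single i0 1) * x i0)) := by
    obtain ⟨B, hB⟩ := hZc.exists_bound_of_continuousOn (continuous_coord i0).continuousOn
    refine (integrable_of_bdd_supp
      (C := C * ‖(EuclideanSpace.single i0 (1:ℝ) : E (n + 1))‖ * B) hZc ?_ ?_ ?_).neg
    · exact ((measurable_lineDeriv hC.continuous).mul
        (continuous_coord i0).measurable).aestronglyMeasurable
    · intro x hx
      rw [abs_mul]
      have h1 : |lineDeriv ℝ W x (EuclideanSpace.single i0 1)| ≤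
          C * ‖(EuclideanSpace.single i0 (1:ℝ) : E (n + 1))‖ := by
        have := norm_lineDeriv_le_of_lipschitz ℝ hC (x₀ := x) (v := EuclideanSpace.single i0 (1:ℝ))
        rwa [Real.norm_eq_abs] at this
      have h2 : |x i0| ≤ B := by simpa [Real.norm_eq_abs] using hB x hx
      exact mul_le_mul h1 h2 (abs_nonneg _) (by positivity)
    · intro x hx
      rw [(hoff x hx).2, zero_mul]
  have hint3 : Integrable ((ZZ n ell K (ell / 2) ε t0).indicator
      fun _ : E (n + 1) => ell * ε * M / (4 * η)) :=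
    (integrable_indicator_iff hZc.measurableSet).mpr (integrableOn_const hZc.measure_lt_top.ne)
  have hRHS : η * (∫ x, ‖fderiv ℝ W x‖ ^ 2) +
      ell * ε * M / (4 * η) * volume.real (ZZ n ell K (ell / 2) ε t0) =
      ∫ x, (η * ‖fderiv ℝ W x‖ ^ 2 + (ZZ n ell K (ell / 2) ε t0).indicator
      (fun _ : E (n + 1) => ell * ε * M / (4 * η)) x) := by
    rw [integral_add (hint2.const_mul _) hint3, integral_const_mul,
      integral_indicator hZc.measurableSet, setIntegral_const, smul_eq_mul, mul_comm (volume.real _)]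
  rw [hRHS]
  refine integral_mono_ae hint1 ((hint2.const_mul _).add hint3) ?_
  filter_upwards [hC.ae_differentiableAt (μ := volume)] with x hx
  by_cases hxZ : x ∈ ZZ n ell K (ell / 2) ε t0
  · rw [indicator_of_mem hxZ, hx.lineDeriv_eq_fderiv]
    have h3 : |fderiv ℝ W x (EuclideanSpace.single i0 1)| ≤ ‖fderiv ℝ W x‖ := by
      have := (fderiv ℝ W x).le_opNorm (EuclideanSpace.single i0 (1 : ℝ))
      simpa [Real.norm_eq_abs] using this
    have h4 : |x i0| ^ 2 ≤ ell * ε * M := by
      refine le_trans ?_ (qq_le_of_mem D.hell D.K_pos D.hε.le hxZ)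
      rw [sq_abs]
      unfold qq
      exact Finset.single_le_sum (f := fun i : Fin n => x i.succ ^ 2)
        (fun i _ => sq_nonneg _) (Finset.mem_univ (⟨0, D.hn⟩ : Fin n))
    set A := fderiv ℝ W x (EuclideanSpace.single i0 1)
    set N := ‖fderiv ℝ W x‖
    have h5 : -(A * x i0) ≤ N * |x i0| := by
      calc -(A * x i0) ≤ |A * x i0| := neg_le_abs _
        _ = |A| * |x i0| := abs_mul _ _
        _ ≤ N * |x i0| := by gcongr
    refine h5.trans ?_
    have h6 : N * |x i0| ≤ η * N ^ 2 + |x i0| ^ 2 / (4 * η) := by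
      have : 0 ≤ (2 * η * N - |x i0|) ^ 2 / (4 * η) := by positivity
      have h7 : (2 * η * N - |x i0|) ^ 2 / (4 * η) =
          η * N ^ 2 - N * |x i0| + |x i0| ^ 2 / (4 * η) := by
        field_simp
        ring
      linarith
    refine h6.trans ?_
    gcongr
  · rw [indicator_of_notMem hxZ, (hoff x hxZ).2, (hoff x hxZ).1]
    simp

/-- The energy comparison. -/
theorem energy_le (D : Dat n w ell t0 γ K ε) {O : Set (E (n + 1))} (hO : MeasurableSet O)
    (hZO : ZZ n ell K (ell / 2) ε t0 ⊆ O) {U ρ : E (n + 1) → ℝ}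
    (hU : ∀ x ∈ ZZ n ell K (ell / 2) ε t0, U =ᶠ[𝓝 x] w) (hρ : IntegrableOn ρ O)
    (hmin : ∫ x in O, ρ x * WW w ell (2 / ell) K (ell / 2) ε t0 x ≤
      ∫ x in O, (√(1 - ‖fderiv ℝ U x‖ ^ 2) -
      √(1 - ‖fderiv ℝ (fun y => U y + WW w ell (2 / ell) K (ell / 2) ε t0 y) x‖ ^ 2))) :
    lam K t0 ε * ∫ x, ‖fderiv ℝ (WW w ell (2 / ell) K (ell / 2) ε t0) x‖ ^ 2 ≤
      ε * Real.exp (K * t0) * ∫ x in ZZ n ell K (ell / 2) ε t0, |ρ x| := by
  obtain ⟨C, hC⟩ := D.exists_lipschitz
  have hε := D.hε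
  set W := WW w ell (2 / ell) K (ell / 2) ε t0 with hWdef
  have hZc : IsCompact (ZZ n ell K (ell / 2) ε t0) := isCompact_ZZ D.hell D.K_pos D.hε.le
  obtain ⟨hGi, hG⟩ := D.integral_GG_le
  have hW0 : ∀ x, x ∉ ZZ n ell K (ell / 2) ε t0 → W x = 0 := fun x hx => indicator_of_notMem hx _
  -- the left-hand side
  have hHi : Integrable fun x => (√(1 - ‖fderiv ℝ U x‖ ^ 2) -
      √(1 - ‖fderiv ℝ (fun y => U y + W y) x‖ ^ 2)) := by
    refine integrable_of_bdd_supp (C := 1) hZc ?_ ?_ ?_
    · exact ((measurable_const.sub ((measurable_fderiv ℝ U).norm.pow_const 2)).sqrt.sub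
        ((measurable_const.sub ((measurable_fderiv ℝ
          (fun y => U y + W y)).norm.pow_const 2)).sqrt)).aestronglyMeasurable
    · intro x _
      have h1 := sqrt_one_sub_sq_le_one ‖fderiv ℝ U x‖
      have h2 := sqrt_one_sub_sq_le_one ‖fderiv ℝ (fun y => U y + W y) x‖
      have h3 := Real.sqrt_nonneg (1 - ‖fderiv ℝ U x‖ ^ 2)
      have h4 := Real.sqrt_nonneg (1 - ‖fderiv ℝ (fun y => U y + W y) x‖ ^ 2)
      rw [abs_le]
      constructor <;> linarith
    · intro x hx
      have h := eventually_zero_of_notMem (w := w) (a := 2 / ell) hx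
      have hF : HasFDerivAt W (0 : E (n + 1) →L[ℝ] ℝ) x :=
        (hasFDerivAt_const (0 : ℝ) x).congr_of_eventuallyEq h
      rw [fderiv_add_of_hasFDerivAt_zero hF, sub_self]
  have h1 : ∫ x in O, (√(1 - ‖fderiv ℝ U x‖ ^ 2) -
      √(1 - ‖fderiv ℝ (fun y => U y + W y) x‖ ^ 2)) ≤ ∫ x, GG w ell t0 K ε x := by
    calc _ ≤ ∫ x in O, GG w ell t0 K ε x := by
          refine integral_mono_ae hHi.integrableOn hGi.integrableOn (ae_restrict_of_ae ?_)
          filter_upwards [hC.ae_differentiableAt (μ := volume)] with x hx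
          exact D.pointwise hU hx
      _ = ∫ x, GG w ell t0 K ε x := by
          refine setIntegral_eq_integral_of_forall_compl_eq_zero fun x hx => ?_
          exact GG_eq_zero fun h => hx (hZO h)
  have h2 : |∫ x in O, ρ x * W x| ≤
      ε * Real.exp (K * t0) * ∫ x in ZZ n ell K (ell / 2) ε t0, |ρ x| := by
    have h3 : ∫ x in O, ρ x * W x = ∫ x in ZZ n ell K (ell / 2) ε t0, ρ x * W x := by
      refine setIntegral_eq_of_subset_of_forall_sdiff_eq_zero hO hZO fun x hx => ?_
      rw [hW0 x hx.2, mul_zero]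
    rw [h3, ← integral_const_mul, ← Real.norm_eq_abs]
    refine norm_integral_le_of_norm_le ((hρ.mono_set hZO).abs.const_mul _) ?_
    refine Eventually.of_forall fun x => ?_
    rw [norm_mul, Real.norm_eq_abs, Real.norm_eq_abs, abs_of_nonneg (WW_nonneg x _ _), mul_comm]
    exact mul_le_mul_of_nonneg_right (D.WW_le x) (abs_nonneg _)
  have h3 := (abs_le.mp h2).1
  linarith

end Dat

end Pool.Agent.H229.BI
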